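import Mathlib

set_option autoImplicit false

open MeasureTheory Set Filter Topology

namespace Pool.Agent.Helper23K9.LR

/-- `f` is Lipschitz with the real constant `K`. -/
def LK {α : Type*} [PseudoMetricSpace α] (K : ℝ) (f : α → ℝ) : Prop :=
  ∀ x y, f x - f y ≤ K * dist x y

section basic
variable {α : Type*} [PseudoMetricSpace α] {K L : ℝ} {f g : α → ℝ}

lemma LK.abs (h : LK K f) (x y : α) : |f x - f y| ≤ K * dist x y := by
  rw [abs_le]
  constructor
  · have := h y x
    rw [dist_comm] at this
    linarith
  · exact h x y

lemma LK.mono (h : LK K f) (hKL : K ≤ L) : LK L f := fun x y =>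
  (h x y).trans (mul_le_mul_of_nonneg_right hKL dist_nonneg)

lemma LK.neg (h : LK K f) : LK K (fun x => - f x) := fun x y => by
  have := h y x
  rw [dist_comm] at this
  linarith

lemma LK.add (h : LK K f) (h' : LK L g) : LK (K + L) (fun x => f x + g x) := fun x y => by
  have := h x y
  have := h' x y
  rw [add_mul]
  linarith

lemma LK.const_mul (h : LK K f) (c : ℝ) : LK (|c| * K) (fun x => c * f x) := fun x y => by
  have h1 := h.abs x y
  calc c * f x - c * f y = c * (f x - f y) := by ring
    _ ≤ |c * (f x - f y)| := le_abs_self _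
    _ = |c| * |f x - f y| := abs_mul _ _
    _ ≤ |c| * (K * dist x y) := mul_le_mul_of_nonneg_left h1 (abs_nonneg _)
    _ = |c| * K * dist x y := by ring

lemma LK.add_const (h : LK K f) (c : ℝ) : LK K (fun x => f x + c) := fun x y => by
  have := h x y
  linarith

lemma LK.of_add_const {c : ℝ} (h : LK K (fun x => f x + c)) : LK K f := fun x y => by
  have := h x y
  linarith

lemma LK.max (h : LK K f) (h' : LK K g) : LK K (fun x => max (f x) (g x)) := fun x y => by
  have h1 := h x y
  have h2 := h' x y
  beta_reduce
  rcases le_total (f x) (g x) with h3 | h3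
  · rw [max_eq_right h3]
    have := le_max_right (f y) (g y)
    linarith
  · rw [max_eq_left h3]
    have := le_max_left (f y) (g y)
    linarith

lemma LK.min (h : LK K f) (h' : LK K g) : LK K (fun x => min (f x) (g x)) := by
  have h1 := (h.neg.max h'.neg).neg
  refine fun x y => ?_
  have := h1 x y
  simpa [max_neg_neg] using this

lemma LK.lipschitz (h : LK K f) : LipschitzWith K.toNNReal f := by
  apply LipschitzWith.of_dist_le_mul
  intro x y
  rw [Real.dist_eq]
  exact (h.abs x y).trans (mul_le_mul_of_nonneg_right (Real.le_coe_toNNReal K) dist_nonneg)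

lemma LK.continuous (h : LK K f) : Continuous f := h.lipschitz.continuous

end basic

/-- `F` is nondecreasing and 1-Lipschitz -/
def Slope (F : ℝ → ℝ) : Prop := ∀ u v, v ≤ u → 0 ≤ F u - F v ∧ F u - F v ≤ u - v

lemma Slope.mono {F : ℝ → ℝ} (h : Slope F) : Monotone F := fun v u huv => by
  have := (h u v huv).1
  linarith

lemma Slope.LK {F : ℝ → ℝ} (h : Slope F) : LK 1 F := fun u v => by
  rw [one_mul, Real.dist_eq]
  rcases le_total v u with h1 | h1
  · have := (h u v h1).2
    exact this.trans (le_abs_self _)
  · have := (h v u h1).1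
    have := abs_nonneg (u - v)
    linarith

lemma Slope.deriv_nonneg {F : ℝ → ℝ} (h : Slope F) (u : ℝ) : 0 ≤ deriv F u := by
  exact h.mono.deriv_nonneg

lemma Slope.deriv_le {F : ℝ → ℝ} (h : Slope F) (u : ℝ) : deriv F u ≤ 1 := by
  by_cases hd : DifferentiableAt ℝ F u
  · have h1 : Monotone (fun u => u - F u) := fun v u huv => by
      have := (h u v huv).2
      simp only
      linarith
    have h2 : 0 ≤ deriv (fun u => u - F u) u := h1.deriv_nonneg
    have h3 : HasDerivAt (fun u => u - F u) (1 - deriv F u) u := (hasDerivAt_id u).sub hd.hasDerivAt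
    rw [h3.deriv] at h2
    linarith
  · rw [deriv_zero_of_not_differentiableAt hd]
    exact zero_le_one

lemma Slope.integral {F : ℝ → ℝ} (h : Slope F) (a b : ℝ) :
    ∫ u in a..b, deriv F u = F b - F a := by
  apply AbsolutelyContinuousOnInterval.integral_deriv_eq_sub
  exact (h.LK.lipschitz.lipschitzOnWith).absolutelyContinuousOnInterval

lemma Slope.intervalIntegrable {F : ℝ → ℝ} (h : Slope F) (a b : ℝ) :
    IntervalIntegrable (deriv F) volume a b := by
  apply AbsolutelyContinuousOnInterval.intervalIntegrable_deriv
  exact (h.LK.lipschitz.lipschitzOnWith).absolutelyContinuousOnInterval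

lemma Slope.ae_hasDerivAt {F : ℝ → ℝ} (h : Slope F) : ∀ᵐ u, HasDerivAt F (deriv F u) u := by
  filter_upwards [h.mono.ae_differentiableAt] with u hu
  exact hu.hasDerivAt

lemma locInt_ind {C : Set ℝ} (hC : MeasurableSet C) :
    LocallyIntegrable (C.indicator (fun _ => (1 : ℝ))) volume := by
  exact (locallyIntegrable_const (1 : ℝ)).indicator hC

/-- `deriv F ∈ {0, 1}` almost everywhere. -/
theorem deriv_zero_or_one {F : ℝ → ℝ} (hF : Slope F)
    (hD : ∀ (H : ℝ → ℝ) (L : ℝ), (∃ K, LK K H) → LK L (fun u => H u + F u) →
      LK L (fun u => H u + u - F u) → LK L (fun u => H u + u)) :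
    ∀ᵐ u, deriv F u = 0 ∨ deriv F u = 1 := by
  -- it suffices to treat each `δ`
  have key : ∀ δ : ℝ, 0 < δ → δ ≤ 1 → ∀ᵐ u, ¬ (δ < deriv F u ∧ deriv F u < 1 - δ) := by
    intro δ hδ hδ1
    set C : Set ℝ := {u | δ < deriv F u ∧ deriv F u < 1 - δ} with hC
    have hCm : MeasurableSet C := by
      apply MeasurableSet.inter
      · exact measurableSet_lt measurable_const (measurable_deriv F)
      · exact measurableSet_lt (measurable_deriv F) measurable_const
    set c : ℝ → ℝ := C.indicator (fun _ => (1 : ℝ)) with hc
    have hc0 : ∀ u, 0 ≤ c u := fun u => indicator_nonneg (fun _ _ => zero_le_one) u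
    have hc1 : ∀ u, c u ≤ 1 := fun u => by
      rw [hc]
      by_cases hu : u ∈ C
      · rw [indicator_of_mem hu]
      · rw [indicator_of_notMem hu]; exact zero_le_one
    have hcL : LocallyIntegrable c volume := locInt_ind hCm
    have hcI : ∀ a b, IntervalIntegrable c volume a b := fun a b =>
      intervalIntegrable_iff.mpr <|
        (hcL.integrableOn_isCompact isCompact_uIcc).mono_set uIoc_subset_uIcc
    set H : ℝ → ℝ := fun u => ∫ s in (0 : ℝ)..u, c s with hH
    have hHd : ∀ a b, H b - H a = ∫ s in a..b, c s := fun a b =>
      intervalIntegral.integral_interval_sub_left (hcI _ _) (hcI _ _)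
    -- a criterion
    have crit : ∀ (p G : ℝ → ℝ) (L : ℝ), (∀ a b, IntervalIntegrable p volume a b) →
        (∀ a b, G b - G a = ∫ s in a..b, p s) → (∀ u, 0 ≤ p u) → (∀ u, p u ≤ L) → LK L G := by
      intro p G L hp hG h0 h1 u v
      rw [Real.dist_eq]
      have hL : 0 ≤ L := (h0 0).trans (h1 0)
      rcases le_total v u with h2 | h2
      · rw [hG v u]
        calc ∫ s in v..u, p s ≤ ∫ s in v..u, L := by
              apply intervalIntegral.integral_mono_on h2 (hp _ _) intervalIntegrable_const
              intro x _
              exact h1 x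
          _ = L * (u - v) := by simp [mul_comm]
          _ ≤ L * |u - v| := mul_le_mul_of_nonneg_left (le_abs_self _) hL
      · have h3 : 0 ≤ G v - G u := by
          rw [hG u v]
          exact intervalIntegral.integral_nonneg h2 (fun s _ => h0 s)
        have : 0 ≤ L * |u - v| := by positivity
        linarith
    have hHL : LK 1 H := crit c H 1 hcI hHd hc0 hc1
    have hFd : ∀ a b, F b - F a = ∫ s in a..b, deriv F s := fun a b => (hF.integral a b).symm
    have h1 : LK (2 - δ) (fun u => H u + F u) := by
      apply crit (fun u => c u + deriv F u)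
      · intro a b
        exact (hcI a b).add (hF.intervalIntegrable a b)
      · intro a b
        rw [intervalIntegral.integral_add (hcI a b) (hF.intervalIntegrable a b), ← hFd, ← hHd]
        ring
      · intro u
        exact add_nonneg (hc0 u) (hF.deriv_nonneg u)
      · intro u
        by_cases hu : u ∈ C
        · have := hu.2
          have := hc1 u
          linarith
        · have h2 : c u = 0 := indicator_of_notMem hu _
          have := hF.deriv_le u
          rw [h2]
          linarith
    have h2 : LK (2 - δ) (fun u => H u + u - F u) := by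
      apply crit (fun u => c u + 1 - deriv F u)
      · intro a b
        exact ((hcI a b).add intervalIntegrable_const).sub (hF.intervalIntegrable a b)
      · intro a b
        rw [intervalIntegral.integral_sub ((hcI a b).add intervalIntegrable_const)
          (hF.intervalIntegrable a b), intervalIntegral.integral_add (hcI a b)
          intervalIntegrable_const, ← hFd, ← hHd]
        simp
        ring
      · intro u
        have := hc0 u
        have := hF.deriv_le u
        linarith
      · intro u
        by_cases hu : u ∈ C
        · have := hu.1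
          have := hc1 u
          linarith
        · have h2 : c u = 0 := indicator_of_notMem hu _
          have := hF.deriv_nonneg u
          rw [h2]
          linarith
    have h3 := hD H (2 - δ) ⟨1, hHL⟩ h1 h2
    -- differentiate
    filter_upwards [LocallyIntegrable.ae_hasDerivAt_integral hcL] with u hu
    intro huC
    have h4 : HasDerivAt (fun u => H u + u) (c u + 1) u := (hu 0).add (hasDerivAt_id u)
    have h5 : c u + 1 ≤ 2 - δ := by
      have h6 : Monotone (fun u => (2 - δ) * u - (H u + u)) := by
        intro a b hab
        have := h3 b a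
        rw [Real.dist_eq, abs_of_nonneg (by linarith)] at this
        simp only
        nlinarith
      have h7 : HasDerivAt (fun u => (2 - δ) * u - (H u + u)) ((2 - δ) * 1 - (c u + 1)) u :=
        ((hasDerivAt_id u).const_mul (2 - δ)).sub h4
      have h8 := h6.deriv_nonneg (x := u)
      rw [h7.deriv] at h8
      linarith
    have huC' : u ∈ C := huC
    have h6 : c u = 1 := indicator_of_mem huC' _
    rw [h6] at h5
    linarith
  have h1 : ∀ᵐ u, ∀ n : ℕ, ¬ (1 / ((n : ℝ) + 1) < deriv F u ∧ deriv F u < 1 - 1 / ((n : ℝ) + 1)) := by
    rw [ae_all_iff]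
    intro n
    apply key
    · positivity
    · rw [div_le_one (by positivity)]
      have : (0 : ℝ) ≤ n := Nat.cast_nonneg n
      linarith
  filter_upwards [h1] with u hu
  by_contra hcon
  push Not at hcon
  have h2 : 0 < deriv F u := lt_of_le_of_ne (hF.deriv_nonneg u) (Ne.symm hcon.1)
  have h3 : 0 < 1 - deriv F u := by
    have := lt_of_le_of_ne (hF.deriv_le u) hcon.2
    linarith
  obtain ⟨n, hn⟩ := exists_nat_one_div_lt (lt_min h2 h3)
  apply hu n
  constructor
  · exact hn.trans_le (min_le_left _ _)
  · have := hn.trans_le (min_le_right _ _)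
    linarith

end Pool.Agent.Helper23K9.LR
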