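import Mathlib
import Pool.Agent.Helper23K9.LR.One

set_option autoImplicit false

open MeasureTheory Set Filter Topology

namespace Pool.Agent.Helper23K9.LR

/-- The relation between `f` and `U f` modulo constants, for a surjective linear isometry `U` of the space of
the Lipschitz functions which is continuous for bounded pointwise convergence in both directions. -/
structure Rel (M : Type*) [PseudoMetricSpace M] where
  R : (M → ℝ) → (M → ℝ) → Prop
  lip : ∀ {f g}, R f g → ∃ K, LK K f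
  lin : ∀ {f g f' g'}, R f g → R f' g' → ∀ a b : ℝ,
    R (fun x => a * f x + b * f' x) (fun x => a * g x + b * g' x)
  iso : ∀ {f g}, R f g → ∀ K, LK K f ↔ LK K g
  tot : ∀ f, (∃ K, LK K f) → ∃ g, R f g
  surj : ∀ g, (∃ K, LK K g) → ∃ f, R f g
  congr : ∀ {f g f' g'}, R f g → (∀ x y, f x - f y = f' x - f' y) →
    (∀ x y, g x - g y = g' x - g' y) → R f' g'
  cont : ∀ (f g : ℕ → M → ℝ) (f0 g0 : M → ℝ) (K : ℝ), (∀ n, R (f n) (g n)) → (∀ n, LK K (f n)) →
    R f0 g0 → (∀ x y, Tendsto (fun n => f n x - f n y) atTop (𝓝 (f0 x - f0 y))) →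
    ∀ x y, Tendsto (fun n => g n x - g n y) atTop (𝓝 (g0 x - g0 y))
  cont' : ∀ (f g : ℕ → M → ℝ) (f0 g0 : M → ℝ) (K : ℝ), (∀ n, R (f n) (g n)) → (∀ n, LK K (f n)) →
    R f0 g0 → (∀ x y, Tendsto (fun n => g n x - g n y) atTop (𝓝 (g0 x - g0 y))) →
    ∀ x y, Tendsto (fun n => f n x - f n y) atTop (𝓝 (f0 x - f0 y))

namespace Rel

section general
variable {M : Type*} [PseudoMetricSpace M] (S : Rel M)

/-- The inverse relation -/
def symm : Rel M where
  R f g := S.R g f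
  lip := fun h => by
    obtain ⟨K, hK⟩ := S.lip h
    exact ⟨K, (S.iso h K).1 hK⟩
  lin := fun h h' a b => S.lin h h' a b
  iso := fun h K => (S.iso h K).symm
  tot := S.surj
  surj := S.tot
  congr := fun h h1 h2 => S.congr h h2 h1
  cont := fun f g f0 g0 K h1 h2 h3 h4 => S.cont' g f g0 f0 K h1 (fun n => (S.iso (h1 n) K).2 (h2 n)) h3 h4
  cont' := fun f g f0 g0 K h1 h2 h3 h4 => S.cont g f g0 f0 K h1 (fun n => (S.iso (h1 n) K).2 (h2 n)) h3 h4

variable {S}

lemma add {f g f' g' : M → ℝ} (h : S.R f g) (h' : S.R f' g') :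
    S.R (fun x => f x + f' x) (fun x => g x + g' x) := by
  have := S.lin h h' 1 1
  simpa using this

lemma sub {f g f' g' : M → ℝ} (h : S.R f g) (h' : S.R f' g') :
    S.R (fun x => f x - f' x) (fun x => g x - g' x) := by
  have := S.lin h h' 1 (-1)
  simpa [sub_eq_add_neg] using this

lemma smul {f g : M → ℝ} (h : S.R f g) (a : ℝ) :
    S.R (fun x => a * f x) (fun x => a * g x) := by
  have := S.lin h h a 0
  simpa using this

lemma neg {f g : M → ℝ} (h : S.R f g) :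
    S.R (fun x => - f x) (fun x => - g x) := by
  have := S.lin h h (-1) 0
  simpa using this

lemma uniq {f g g' : M → ℝ} (h : S.R f g) (h' : S.R f g') (x y : M) : g x - g y = g' x - g' y := by
  have h1 := S.sub h h'
  have h2 : LK 0 (fun x => f x - f x) := fun x y => by simp
  have h3 := (S.iso h1 0).1 h2
  have h4 := h3 x y
  have h5 := h3 y x
  simp only [zero_mul] at h4 h5
  linarith

lemma uniq' {f f' g : M → ℝ} (h : S.R f g) (h' : S.R f' g) (x y : M) : f x - f y = f' x - f' y :=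
  uniq (S := S.symm) h h' x y

end general

section hilbert

open scoped InnerProductSpace

variable {E : Type*} [NormedAddCommGroup E] [InnerProductSpace ℝ E] (S : Rel E)

lemma LK_inner (ξ : E) : LK ‖ξ‖ (fun x => ⟪ξ, x⟫_ℝ) := fun x y => by
  rw [← inner_sub_right, dist_eq_norm]
  exact real_inner_le_norm _ _

/-- the image of the linear function `⟪ξ, ·⟫`, normalised at the origin -/
noncomputable def b (ξ : E) (x : E) : ℝ :=
  Classical.choose (S.tot (fun x => ⟪ξ, x⟫_ℝ) ⟨_, LK_inner ξ⟩) x -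
    Classical.choose (S.tot (fun x => ⟪ξ, x⟫_ℝ) ⟨_, LK_inner ξ⟩) 0

lemma R_b (ξ : E) : S.R (fun x => ⟪ξ, x⟫_ℝ) (S.b ξ) := by
  refine S.congr (Classical.choose_spec (S.tot (fun x => ⟪ξ, x⟫_ℝ) ⟨_, LK_inner ξ⟩))
    (fun _ _ => rfl) (fun x y => ?_)
  unfold b
  ring

lemma b_zero (ξ : E) : S.b ξ 0 = 0 := by unfold b; ring

lemma b_comb (a c : ℝ) (ξ η : E) (x : E) : S.b (a • ξ + c • η) x = a * S.b ξ x + c * S.b η x := by
  have h1 := S.lin (S.R_b ξ) (S.R_b η) a c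
  have h2 := S.R_b (a • ξ + c • η)
  have h3 : (fun x => a * ⟪ξ, x⟫_ℝ + c * ⟪η, x⟫_ℝ) = (fun x => ⟪a • ξ + c • η, x⟫_ℝ) := by
    funext x
    rw [inner_add_left, real_inner_smul_left, real_inner_smul_left]
  rw [h3] at h1
  have h4 := uniq h2 h1 x 0
  simp only [b_zero] at h4
  linarith

lemma LK_b (ξ : E) : LK ‖ξ‖ (S.b ξ) := (S.iso (S.R_b ξ) _).1 (LK_inner ξ)

lemma LK_b_comb (a c : ℝ) (ξ η : E) : LK ‖a • ξ + c • η‖ (fun x => a * S.b ξ x + c * S.b η x) := by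
  have h := S.LK_b (a • ξ + c • η)
  have h3 : S.b (a • ξ + c • η) = fun x => a * S.b ξ x + c * S.b η x := by
    funext x
    exact S.b_comb a c ξ η x
  rwa [h3] at h

lemma norm_comb_sq {ξ η : E} (hξ : ‖ξ‖ = 1) (hη : ‖η‖ = 1) (h : ⟪ξ, η⟫_ℝ = 0) (a c : ℝ) :
    ‖a • ξ + c • η‖ ^ 2 = a ^ 2 + c ^ 2 := by
  rw [norm_add_sq_real, norm_smul, norm_smul, real_inner_smul_left, real_inner_smul_right, hξ, hη, h]
  simp

/-- the pair `(b ξ, b η)` is a contraction into the Euclidean plane -/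
lemma plane {ξ η : E} (hξ : ‖ξ‖ = 1) (hη : ‖η‖ = 1) (h : ⟪ξ, η⟫_ℝ = 0) (x y : E) :
    (S.b ξ x - S.b ξ y) ^ 2 + (S.b η x - S.b η y) ^ 2 ≤ dist x y ^ 2 := by
  set a := S.b ξ x - S.b ξ y with ha
  set c := S.b η x - S.b η y with hc
  have h1 := S.LK_b_comb a c ξ η x y
  have h2 := norm_comb_sq hξ hη h a c
  have h3 : a * S.b ξ x + c * S.b η x - (a * S.b ξ y + c * S.b η y) = a ^ 2 + c ^ 2 := by
    rw [ha, hc]; ring
  beta_reduce at h1
  rw [h3] at h1
  rw [← h2] at h1 ⊢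
  have h4 : 0 ≤ ‖a • ξ + c • η‖ := norm_nonneg _
  rcases h4.eq_or_lt with h5 | h5
  · rw [← h5]
    simp
  · have h6 : ‖a • ξ + c • η‖ ≤ dist x y := by
      nlinarith
    exact pow_le_pow_left₀ h4 h6 2

/-- The ridge criterion. -/
lemma ridge {ξ : E} {f g : E → ℝ} (hR : S.R f g)
    (hg : ∀ v : E, ‖v‖ = 1 → ⟪ξ, v⟫_ℝ = 0 → ∀ s : ℝ, 0 ≤ s →
      LK (Real.sqrt (s ^ 2 + 1)) (fun x => s * S.b v x + g x)) {x y : E}
    (hxy : ⟪ξ, x⟫_ℝ = ⟪ξ, y⟫_ℝ) : f x = f y := by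
  have key : ∀ x y : E, ⟪ξ, x⟫_ℝ = ⟪ξ, y⟫_ℝ → f x - f y ≤ 0 := by
    intro x y hxy
    by_cases hne : x = y
    · rw [hne]; simp
    set r := ‖x - y‖ with hr
    have hr0 : 0 < r := norm_pos_iff.2 (sub_ne_zero.2 hne)
    set v : E := r⁻¹ • (x - y) with hv
    have hv1 : ‖v‖ = 1 := by
      rw [hv, norm_smul, norm_inv, Real.norm_eq_abs, abs_of_pos hr0, ← hr]
      exact inv_mul_cancel₀ hr0.ne'
    have hv2 : ⟪ξ, v⟫_ℝ = 0 := by
      rw [hv, real_inner_smul_right, inner_sub_right, hxy]; simp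
    have hv3 : ⟪v, x⟫_ℝ - ⟪v, y⟫_ℝ = r := by
      rw [← inner_sub_right, hv, real_inner_smul_left, real_inner_self_eq_norm_sq, ← hr]
      field_simp
    have h1 : ∀ s : ℝ, 0 ≤ s → f x - f y ≤ (Real.sqrt (s ^ 2 + 1) - s) * r := by
      intro s hs
      have h2 := S.add (smul (S.R_b v) s) hR
      have h3 := (S.iso h2 _).2 (hg v hv1 hv2 s hs) x y
      rw [dist_eq_norm, ← hr] at h3
      nlinarith
    by_contra hcon
    push Not at hcon
    set d := f x - f y with hd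
    -- choose `s` large
    have h4 := h1 (r / d) (by positivity)
    have h5 : Real.sqrt ((r / d) ^ 2 + 1) < r / d + d / r := by
      rw [Real.sqrt_lt' (by positivity)]
      have : (r / d + d / r) ^ 2 = (r / d) ^ 2 + 2 + (d / r) ^ 2 := by
        field_simp
        ring
      rw [this]
      have : 0 < (d / r) ^ 2 := by positivity
      linarith
    have h6 : (Real.sqrt ((r / d) ^ 2 + 1) - r / d) * r < (d / r) * r :=
      mul_lt_mul_of_pos_right (by linarith) hr0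
    rw [div_mul_cancel₀ _ hr0.ne'] at h6
    linarith
  have h1 := key x y hxy
  have h2 := key y x hxy.symm
  linarith

/-- the hinge function -/
noncomputable def hinge (t u : ℝ) : ℝ := max (u - t) 0

lemma LK_sb_hinge {ξ v : E} (hξ : ‖ξ‖ = 1) (hv : ‖v‖ = 1) (h : ⟪ξ, v⟫_ℝ = 0) (t s : ℝ) (hs : 0 ≤ s) :
    LK (Real.sqrt (s ^ 2 + 1)) (fun x => s * S.b v x + hinge t (S.b ξ x)) := by
  have h1 : LK (Real.sqrt (s ^ 2 + 1)) (fun x => s * S.b v x + 1 * S.b ξ x) := by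
    have h2 := S.LK_b_comb s 1 v ξ
    have h3 := norm_comb_sq hv hξ (by rw [real_inner_comm]; exact h) s 1
    have h4 : ‖s • v + (1 : ℝ) • ξ‖ = Real.sqrt (s ^ 2 + 1) := by
      have h5 : s ^ 2 + 1 = s ^ 2 + (1 : ℝ) ^ 2 := by norm_num
      rw [h5, ← h3, Real.sqrt_sq (norm_nonneg _)]
    rwa [h4] at h2
  have h2 : LK (Real.sqrt (s ^ 2 + 1)) (fun x => s * S.b v x) := by
    have h3 := (S.LK_b v).const_mul s
    apply h3.mono
    rw [hv, abs_of_nonneg hs, mul_one]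
    apply Real.le_sqrt_of_sq_le
    linarith
  have h3 := (h1.add_const (-t)).max h2
  have h4 : (fun x => max (s * S.b v x + 1 * S.b ξ x + -t) (s * S.b v x)) =
      fun x => s * S.b v x + hinge t (S.b ξ x) := by
    funext x
    unfold hinge
    rcases le_total (S.b ξ x - t) 0 with h5 | h5
    · rw [max_eq_right h5, max_eq_right (by linarith)]; ring
    · rw [max_eq_left h5, max_eq_left (by linarith)]; ring
  rwa [h4] at h3

lemma LK_hinge_real (t : ℝ) : LK 1 (hinge t) := by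
  have h1 : LK 1 (fun u : ℝ => u - t) := fun u v => by
    rw [Real.dist_eq, one_mul]
    have := le_abs_self (u - v)
    linarith
  have h2 : LK 1 (fun _ : ℝ => (0 : ℝ)) := fun u v => by
    simp
  exact h1.max h2

lemma LK.comp_real {α : Type*} [PseudoMetricSpace α] {K L : ℝ} {φ : ℝ → ℝ} {g : α → ℝ} (hK : 0 ≤ K)
    (h : LK K φ) (hg : LK L g) : LK (K * L) (fun x => φ (g x)) := fun x y => by
  have h1 := h (g x) (g y)
  have h2 := hg.abs x y
  rw [Real.dist_eq] at h1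
  calc φ (g x) - φ (g y) ≤ K * |g x - g y| := h1
    _ ≤ K * (L * dist x y) := mul_le_mul_of_nonneg_left h2 hK
    _ = K * L * dist x y := by ring

/-- the preimage of `hinge t ∘ b ξ` is a ridge function -/
theorem exists_ridge {ξ : E} (hξ : ‖ξ‖ = 1) (t : ℝ) :
    ∃ F : ℝ → ℝ, S.R (fun x => F ⟪ξ, x⟫_ℝ) (fun x => hinge t (S.b ξ x)) := by
  have hL : LK (1 * ‖ξ‖) (fun x => hinge t (S.b ξ x)) :=
    LK.comp_real zero_le_one (LK_hinge_real t) (S.LK_b ξ)
  obtain ⟨f, hf⟩ := S.surj _ ⟨_, hL⟩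
  refine ⟨fun u => f (u • ξ), S.congr hf (fun x y => ?_) (fun _ _ => rfl)⟩
  have h1 : ∀ z : E, f z = f (⟪ξ, z⟫_ℝ • ξ) := by
    intro z
    apply S.ridge (ξ := ξ) hf
    · intro v hv hv2 s hs
      exact S.LK_sb_hinge hξ hv hv2 t s hs
    · rw [real_inner_smul_right, real_inner_self_eq_norm_sq, hξ]; ring
  rw [h1 x, h1 y]

end hilbert

end Rel

end Pool.Agent.Helper23K9.LR
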