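import Mathlib
import Pool.Agent.Helper23K9.LR.Rel

set_option autoImplicit false

open MeasureTheory Set Filter Topology
open scoped InnerProductSpace

namespace Pool.Agent.Helper23K9.LR

lemma half_of_slope {φ : ℝ → ℝ} (h : Slope φ) : LK (1 / 2) (fun u : ℝ => φ u - 1 / 2 * u) := fun u v => by
  rw [Real.dist_eq]
  beta_reduce
  rcases le_total v u with h1 | h1
  · rw [abs_of_nonneg (by linarith)]
    have := (h u v h1).2
    linarith
  · rw [abs_of_nonpos (by linarith)]
    have := (h v u h1).1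
    linarith

lemma slope_of_half {φ : ℝ → ℝ} (h : LK (1 / 2) (fun u : ℝ => φ u - 1 / 2 * u)) : Slope φ := fun u v h1 => by
  have h2 := h u v
  have h3 := h v u
  rw [Real.dist_eq] at h2 h3
  beta_reduce at h2 h3
  rw [abs_of_nonneg (by linarith)] at h2
  rw [abs_of_nonpos (by linarith)] at h3
  constructor <;> linarith

lemma slope_hinge (t : ℝ) : Slope (Rel.hinge t) := fun u v h => by
  unfold Rel.hinge
  rcases le_total (u - t) 0 with h1 | h1 <;> rcases le_total (v - t) 0 with h2 | h2
  · rw [max_eq_right h1, max_eq_right h2]; constructor <;> linarith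
  · rw [max_eq_right h1, max_eq_left h2]; constructor <;> linarith
  · rw [max_eq_left h1, max_eq_right h2]; constructor <;> linarith
  · rw [max_eq_left h1, max_eq_left h2]; constructor <;> linarith

lemma slope_clip {s t : ℝ} (hst : s ≤ t) : Slope (fun u => Rel.hinge s u - Rel.hinge t u) := fun u v h => by
  unfold Rel.hinge
  beta_reduce
  rcases le_total (u - t) 0 with h1 | h1 <;> rcases le_total (v - t) 0 with h2 | h2 <;>
  rcases le_total (u - s) 0 with h3 | h3 <;> rcases le_total (v - s) 0 with h4 | h4 <;>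
  simp only [max_eq_right, max_eq_left, h1, h2, h3, h4] <;> constructor <;> linarith

namespace Rel

variable {E : Type*} [NormedAddCommGroup E] [InnerProductSpace ℝ E] (S : Rel E)

lemma LK_of_ridge {ξ : E} (hξ : ‖ξ‖ = 1) {K : ℝ} {G : ℝ → ℝ} (h : LK K (fun x : E => G ⟪ξ, x⟫_ℝ)) :
    LK K G := fun u v => by
  have h1 := h (u • ξ) (v • ξ)
  have h2 : ∀ w : ℝ, ⟪ξ, w • ξ⟫_ℝ = w := fun w => by
    rw [real_inner_smul_right, real_inner_self_eq_norm_sq, hξ]; ring
  beta_reduce at h1
  rw [h2, h2] at h1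
  have h3 : dist (u • ξ) (v • ξ) = dist u v := by
    rw [dist_eq_norm, ← sub_smul, norm_smul, hξ, mul_one, dist_eq_norm]
  rwa [h3] at h1

lemma slope_transfer {ξ : E} (hξ : ‖ξ‖ = 1) {G φ : ℝ → ℝ}
    (h : S.R (fun x => G ⟪ξ, x⟫_ℝ) (fun x => φ (S.b ξ x))) (hφ : Slope φ) : Slope G := by
  apply slope_of_half
  apply LK_of_ridge hξ
  have h1 := S.lin h (S.R_b ξ) 1 (-(1 / 2))
  have h2 : LK (1 / 2) (fun x => φ (S.b ξ x) - 1 / 2 * S.b ξ x) := by
    have := LK.comp_real (by norm_num : (0 : ℝ) ≤ 1 / 2) (half_of_slope hφ) (S.LK_b ξ)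
    rwa [hξ, mul_one] at this
  have h3 : (fun x => 1 * φ (S.b ξ x) + -(1 / 2) * S.b ξ x) = fun x => φ (S.b ξ x) - 1 / 2 * S.b ξ x := by
    funext x; ring
  have h4 : (fun x => 1 * G ⟪ξ, x⟫_ℝ + -(1 / 2) * ⟪ξ, x⟫_ℝ) =
      fun x => G ⟪ξ, x⟫_ℝ - 1 / 2 * ⟪ξ, x⟫_ℝ := by
    funext x; ring
  rw [h3, h4] at h1
  exact (S.iso h1 _).2 h2

/-- `D`-property: gluing along a level set -/
lemma glue {b h : E → ℝ} {t L : ℝ} (hb : Continuous b) (h1 : LK L (fun x => h x + hinge t (b x)))
    (h2 : LK L (fun x => h x + (b x - hinge t (b x)))) : LK L (fun x => h x + b x) := by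
  have key : ∀ x y, t ≤ b x → b y ≤ t → |(h x + b x) - (h y + b y)| ≤ L * dist x y := by
    intro x y hx hy
    -- a point on the segment
    obtain ⟨z, hz, hzt⟩ : ∃ z ∈ segment ℝ y x, b z = t := by
      have h3 : IsPreconnected (segment ℝ y x) := (convex_segment y x).isPreconnected
      have h4 := h3.intermediate_value (left_mem_segment ℝ y x) (right_mem_segment ℝ y x) hb.continuousOn
      obtain ⟨z, hz, hzt⟩ := h4 ⟨hy, hx⟩
      exact ⟨z, hz, hzt⟩
    have h3 := h1.abs x z
    have h4 := h2.abs z y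
    have h5 : dist x z + dist z y = dist x y := by
      rw [dist_comm x z, dist_comm z y, dist_comm x y, add_comm]
      exact dist_add_dist_of_mem_segment hz
    have e1 : hinge t (b x) = b x - t := by unfold hinge; rw [max_eq_left (by linarith)]
    have e2 : hinge t (b z) = 0 := by unfold hinge; rw [hzt]; simp
    have e3 : hinge t (b y) = 0 := by unfold hinge; rw [max_eq_right (by linarith)]
    rw [e1, e2] at h3
    rw [e2, e3] at h4
    calc |(h x + b x) - (h y + b y)| = |(h x + (b x - t) - (h z + 0)) + (h z + (b z - 0) - (h y + (b y - 0)))| := by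
          rw [hzt]; congr 1; ring
      _ ≤ L * dist x z + L * dist z y := (abs_add_le _ _).trans (add_le_add h3 h4)
      _ = L * dist x y := by rw [← h5]; ring
  intro x y
  beta_reduce
  rcases le_total t (b x) with hx | hx <;> rcases le_total t (b y) with hy | hy
  · have h3 := h1 x y
    beta_reduce at h3
    unfold hinge at h3
    rw [max_eq_left (by linarith), max_eq_left (by linarith)] at h3
    linarith
  · exact (le_abs_self _).trans (key x y hx hy)
  · have := key y x hy hx
    rw [abs_sub_comm, dist_comm] at this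
    exact (le_abs_self _).trans this
  · have h3 := h2 x y
    beta_reduce at h3
    unfold hinge at h3
    rw [max_eq_right (by linarith), max_eq_right (by linarith)] at h3
    linarith

/-- the slopes are `0` or `1` -/
lemma slope01 {ξ : E} (hξ : ‖ξ‖ = 1) {t : ℝ} {F : ℝ → ℝ}
    (hF : S.R (fun x => F ⟪ξ, x⟫_ℝ) (fun x => hinge t (S.b ξ x))) :
    ∀ᵐ u, deriv F u = 0 ∨ deriv F u = 1 := by
  apply deriv_zero_or_one (S.slope_transfer hξ hF (slope_hinge t))
  intro H L hH h1 h2
  obtain ⟨K, hK⟩ := hH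
  have hK0 : LK (|K| * ‖ξ‖) (fun x : E => H ⟪ξ, x⟫_ℝ) :=
    LK.comp_real (abs_nonneg K) (hK.mono (le_abs_self K)) (LK_inner ξ)
  obtain ⟨h, hh⟩ := S.tot _ ⟨_, hK0⟩
  have hL : 0 ≤ L := by
    have := h1 1 0
    have h3 := h1 0 1
    rw [Real.dist_eq] at this h3
    norm_num at this h3
    linarith
  have g1 : LK L (fun x => h x + hinge t (S.b ξ x)) := by
    refine (S.iso (S.add hh hF) L).1 ?_
    have := LK.comp_real hL h1 (LK_inner ξ)
    rwa [hξ, mul_one] at this
  have g2 : LK L (fun x => h x + (S.b ξ x - hinge t (S.b ξ x))) := by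
    refine (S.iso (S.add hh (S.sub (S.R_b ξ) hF)) L).1 ?_
    have := LK.comp_real hL h2 (LK_inner ξ)
    rw [hξ, mul_one] at this
    have e : (fun x : E => H ⟪ξ, x⟫_ℝ + (⟪ξ, x⟫_ℝ - F ⟪ξ, x⟫_ℝ)) =
      fun x => H ⟪ξ, x⟫_ℝ + ⟪ξ, x⟫_ℝ - F ⟪ξ, x⟫_ℝ := by funext x; ring
    rwa [e]
  have g3 := glue (S.LK_b ξ).continuous g1 g2
  exact LK_of_ridge hξ ((S.iso (S.add hh (S.R_b ξ)) L).2 g3)

lemma ae_eq_zero_of_integral {c : ℝ → ℝ} (hc : LocallyIntegrable c volume)
    (h : ∀ a b, a ≤ b → ∫ u in a..b, c u = 0) : ∀ᵐ u, c u = 0 := by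
  have h0 : ∀ a b, ∫ u in a..b, c u = 0 := by
    intro a b
    rcases le_total a b with h1 | h1
    · exact h a b h1
    · rw [intervalIntegral.integral_symm, h b a h1, neg_zero]
  filter_upwards [LocallyIntegrable.ae_hasDerivAt_integral hc] with u hu
  have h1 := hu 0
  have h2 : (fun x => ∫ t in (0 : ℝ)..x, c t) = fun _ => 0 := by
    funext x; exact h0 0 x
  rw [h2] at h1
  exact h1.unique (hasDerivAt_const u 0)

/-- the sets where all slopes are zero are null when the increments converge to the full increments -/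
lemma ae_exists_one {F : ℕ → ℝ → ℝ} (hF : ∀ n, Slope (F n))
    (h01 : ∀ n, ∀ᵐ u, deriv (F n) u = 0 ∨ deriv (F n) u = 1)
    (hlim : ∀ u v, Tendsto (fun n => F n u - F n v) atTop (𝓝 (u - v))) :
    ∀ᵐ u, ∃ n, deriv (F n) u = 1 := by
  set Z : Set ℝ := {u | ∀ n, deriv (F n) u ≠ 1} with hZ
  have hZm : MeasurableSet Z := by
    have : Z = ⋂ n, {u | deriv (F n) u ≠ 1} := by ext u; simp [hZ]
    rw [this]
    apply MeasurableSet.iInter
    intro n
    exact (measurableSet_eq_fun (measurable_deriv (F n)) measurable_const).compl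
  have hcL := locInt_ind hZm
  have hcI : ∀ a b, IntervalIntegrable (Z.indicator (fun _ => (1 : ℝ))) volume a b := fun a b =>
    intervalIntegrable_iff.mpr <|
      (hcL.integrableOn_isCompact isCompact_uIcc).mono_set uIoc_subset_uIcc
  have h0 : ∀ᵐ u, Z.indicator (fun _ => (1 : ℝ)) u = 0 := by
    apply ae_eq_zero_of_integral hcL
    intro a b hab
    apply le_antisymm
    · have h1 : ∀ n, ∫ u in a..b, Z.indicator (fun _ => (1 : ℝ)) u ≤ (b - a) - (F n b - F n a) := by
        intro n
        have h2 : (b - a) - (F n b - F n a) = ∫ u in a..b, (1 - deriv (F n) u) := by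
          rw [intervalIntegral.integral_sub intervalIntegrable_const ((hF n).intervalIntegrable a b),
            (hF n).integral]
          simp
        rw [h2]
        apply intervalIntegral.integral_mono_ae hab (hcI a b)
          (intervalIntegrable_const.sub ((hF n).intervalIntegrable a b))
        filter_upwards [h01 n] with u hu
        by_cases huZ : u ∈ Z
        · rw [indicator_of_mem huZ]
          rcases hu with h3 | h3
          · rw [h3]; simp
          · exact absurd h3 (huZ n)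
        · rw [indicator_of_notMem huZ]
          have := (hF n).deriv_le u
          linarith
      have h2 : Tendsto (fun n => (b - a) - (F n b - F n a)) atTop (𝓝 ((b - a) - (b - a))) :=
        (tendsto_const_nhds).sub (hlim b a)
      rw [sub_self] at h2
      exact ge_of_tendsto' h2 h1
    · exact intervalIntegral.integral_nonneg hab (fun u _ => indicator_nonneg (fun _ _ => zero_le_one) u)
  filter_upwards [h0] with u hu
  by_contra hcon
  push Not at hcon
  have : u ∈ Z := hcon
  rw [indicator_of_mem this] at hu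
  exact one_ne_zero hu

/-- Local data for a unit vector. -/
structure Data (ξ : E) where
  F : ℝ → ℝ → ℝ
  hF : ∀ t, S.R (fun x => F t ⟪ξ, x⟫_ℝ) (fun x => hinge t (S.b ξ x))
  B : ℝ → ℝ
  hB : Measurable B
  D : Set ℝ
  hD : ∀ᵐ u, u ∈ D
  one : ∀ u ∈ D, ∀ q : ℚ, (q : ℝ) < B u → HasDerivAt (F q) 1 u
  zero : ∀ u ∈ D, ∀ q : ℚ, B u < (q : ℝ) → HasDerivAt (F q) 0 u

theorem exists_data {ξ : E} (hξ : ‖ξ‖ = 1) : Nonempty (S.Data ξ) := by
  choose F hF using fun t => S.exists_ridge hξ t
  have hS : ∀ t, Slope (F t) := fun t => S.slope_transfer hξ (hF t) (slope_hinge t)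
  have hSd : ∀ s t, s ≤ t → Slope (fun u => F s u - F t u) := fun s t hst =>
    S.slope_transfer (G := fun u => F s u - F t u) (φ := fun u => hinge s u - hinge t u) hξ (Rel.sub (hF s) (hF t)) (slope_clip hst)
  have h01 : ∀ t, ∀ᵐ u, deriv (F t) u = 0 ∨ deriv (F t) u = 1 := fun t => S.slope01 hξ (hF t)
  have hin : ∀ w : ℝ, ⟪ξ, w • ξ⟫_ℝ = w := fun w => by
    rw [real_inner_smul_right, real_inner_self_eq_norm_sq, hξ]; ring
  -- limits
  have lim1 : ∀ u v, Tendsto (fun n : ℕ => F (-(n : ℝ)) u - F (-(n : ℝ)) v) atTop (𝓝 (u - v)) := by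
    intro u v
    have h1 := S.cont' (fun n x => F (-(n : ℝ)) ⟪ξ, x⟫_ℝ) (fun n x => hinge (-(n : ℝ)) (S.b ξ x))
      (fun x => ⟪ξ, x⟫_ℝ) (S.b ξ) 1 (fun n => hF _) (fun n => by
        have := LK.comp_real zero_le_one (hS (-(n : ℝ))).LK (LK_inner ξ)
        rwa [hξ, mul_one] at this) (S.R_b ξ) (fun x y => by
          apply tendsto_const_nhds.congr'
          obtain ⟨N, hN⟩ := exists_nat_ge (max |S.b ξ x| |S.b ξ y|)
          filter_upwards [eventually_ge_atTop N] with n hn
          have hn' : (N : ℝ) ≤ n := by exact_mod_cast hn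
          have e1 : -(n : ℝ) ≤ S.b ξ x := by
            have := (abs_le.1 ((le_max_left _ _).trans (hN.trans hn'))).1
            exact this
          have e2 : -(n : ℝ) ≤ S.b ξ y := by
            have := (abs_le.1 ((le_max_right _ _).trans (hN.trans hn'))).1
            exact this
          unfold hinge
          rw [max_eq_left (by linarith), max_eq_left (by linarith)]
          ring) (u • ξ) (v • ξ)
    simp only [hin] at h1
    exact h1
  have lim2 : ∀ u v, Tendsto (fun n : ℕ => F (n : ℝ) u - F (n : ℝ) v) atTop (𝓝 0) := by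
    intro u v
    have hR0 : S.R (fun _ => (0 : ℝ)) (fun _ => (0 : ℝ)) := by
      have := S.smul (S.R_b ξ) 0
      simpa using this
    have h1 := S.cont' (fun n x => F (n : ℝ) ⟪ξ, x⟫_ℝ) (fun n x => hinge (n : ℝ) (S.b ξ x))
      (fun _ => 0) (fun _ => 0) 1 (fun n => hF _) (fun n => by
        have := LK.comp_real zero_le_one (hS (n : ℝ)).LK (LK_inner ξ)
        rwa [hξ, mul_one] at this) hR0 (fun x y => by
          apply tendsto_const_nhds.congr'
          obtain ⟨N, hN⟩ := exists_nat_ge (max |S.b ξ x| |S.b ξ y|)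
          filter_upwards [eventually_ge_atTop N] with n hn
          have hn' : (N : ℝ) ≤ n := by exact_mod_cast hn
          have e1 : S.b ξ x ≤ n := (abs_le.1 ((le_max_left _ _).trans (hN.trans hn'))).2
          have e2 : S.b ξ y ≤ n := (abs_le.1 ((le_max_right _ _).trans (hN.trans hn'))).2
          unfold hinge
          rw [max_eq_right (by linarith), max_eq_right (by linarith)]) (u • ξ) (v • ξ)
    simp only [hin, sub_zero] at h1
    exact h1
  have hone := ae_exists_one (F := fun n : ℕ => F (-(n : ℝ))) (fun n => hS _) (fun n => h01 _) lim1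
  have hzero : ∀ᵐ u, ∃ n : ℕ, deriv (F (n : ℝ)) u = 0 := by
    have h1 := ae_exists_one (F := fun (n : ℕ) u => u - F (n : ℝ) u)
      (fun n => fun u v huv => by
        have := hS (n : ℝ) u v huv
        beta_reduce
        constructor <;> linarith [this.1, this.2])
      (fun n => by
        filter_upwards [h01 (n : ℝ), (hS (n : ℝ)).ae_hasDerivAt] with u h1 h2
        have h3 : HasDerivAt (fun u => u - F (n : ℝ) u) (1 - deriv (F (n : ℝ)) u) u :=
          (hasDerivAt_id u).sub h2
        rw [h3.deriv]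
        rcases h1 with h1 | h1
        · right; rw [h1]; ring
        · left; rw [h1]; ring)
      (fun u v => by
        have := (tendsto_const_nhds (x := u - v)).sub (lim2 u v)
        rw [sub_zero] at this
        refine this.congr (fun n => ?_)
        ring)
    have h2 : ∀ᵐ u, ∀ n : ℕ, HasDerivAt (F (n : ℝ)) (deriv (F (n : ℝ)) u) u := by
      rw [ae_all_iff]; intro n; exact (hS (n : ℝ)).ae_hasDerivAt
    filter_upwards [h1, h2] with u h3 h4
    obtain ⟨n, hn⟩ := h3
    refine ⟨n, ?_⟩
    have h5 : HasDerivAt (fun u => u - F (n : ℝ) u) (1 - deriv (F (n : ℝ)) u) u :=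
      (hasDerivAt_id u).sub (h4 n)
    rw [h5.deriv] at hn
    linarith
  -- the good set
  have hgood : ∀ᵐ u, (∀ q : ℚ, HasDerivAt (F q) (deriv (F q) u) u ∧
      (deriv (F q) u = 0 ∨ deriv (F q) u = 1)) ∧ (∃ n : ℕ, deriv (F (-(n : ℝ))) u = 1) ∧
      ∃ n : ℕ, deriv (F (n : ℝ)) u = 0 := by
    have h1 : ∀ᵐ u, ∀ q : ℚ, HasDerivAt (F q) (deriv (F q) u) u ∧
      (deriv (F q) u = 0 ∨ deriv (F q) u = 1) := by
      rw [ae_all_iff]; intro q; exact ((hS q).ae_hasDerivAt).and (h01 q)
    exact h1.and (hone.and hzero)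
  obtain ⟨D, hDm, hDg, hDn⟩ : ∃ D : Set ℝ, MeasurableSet D ∧ (∀ u ∈ D, (∀ q : ℚ, HasDerivAt (F q) (deriv (F q) u) u ∧
      (deriv (F q) u = 0 ∨ deriv (F q) u = 1)) ∧ (∃ n : ℕ, deriv (F (-(n : ℝ))) u = 1) ∧
      ∃ n : ℕ, deriv (F (n : ℝ)) u = 0) ∧ ∀ᵐ u, u ∈ D := by
    obtain ⟨T, hT1, hT2, hT3⟩ := exists_measurable_superset_of_null (ae_iff.1 hgood)
    refine ⟨Tᶜ, hT2.compl, ?_, ?_⟩
    · intro u hu
      by_contra hcon
      exact hu (hT1 hcon)
    · rw [ae_iff]
      simpa using hT3
  -- monotonicity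
  have hmono : ∀ u ∈ D, ∀ q r : ℚ, q ≤ r → deriv (F r) u ≤ deriv (F q) u := by
    intro u hu q r hqr
    have h1 := ((hDg u hu).1 q).1
    have h2 := ((hDg u hu).1 r).1
    have h3 : HasDerivAt (fun u => F q u - F r u) (deriv (F q) u - deriv (F r) u) u := h1.sub h2
    have h4 := (hSd q r (by exact_mod_cast hqr)).deriv_nonneg u
    rw [h3.deriv] at h4
    linarith
  classical
  set A : ℝ → Set ℝ := fun u => {t | ∃ q : ℚ, (q : ℝ) = t ∧ deriv (F q) u = 1} with hA
  have hAne : ∀ u ∈ D, (A u).Nonempty := by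
    intro u hu
    obtain ⟨n, hn⟩ := (hDg u hu).2.1
    refine ⟨-(n : ℝ), -(n : ℚ), by push_cast; rfl, ?_⟩
    push_cast
    exact hn
  have hAbd : ∀ u ∈ D, BddAbove (A u) := by
    intro u hu
    obtain ⟨n, hn⟩ := (hDg u hu).2.2
    refine ⟨n, ?_⟩
    rintro t ⟨q, rfl, hq⟩
    by_contra hcon
    push Not at hcon
    have h1 := hmono u hu (n : ℚ) q (by
      have : ((n : ℚ) : ℝ) ≤ (q : ℝ) := by push_cast; exact hcon.le
      exact_mod_cast this)
    push_cast at h1
    rw [hq, hn] at h1
    linarith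
  set B : ℝ → ℝ := fun u => if u ∈ D then sSup (A u) else 0 with hB
  have hBm : Measurable B := by
    apply measurable_of_Ioi
    intro a
    have : B ⁻¹' Ioi a = (D ∩ ⋃ q : {q : ℚ // a < (q : ℝ)}, {u | deriv (F (q : ℚ)) u = 1}) ∪
        (if a < 0 then Dᶜ else ∅) := by
      ext u
      rw [mem_preimage, mem_Ioi, hB]
      simp only [mem_union, mem_inter_iff, mem_iUnion, mem_setOf_eq]
      by_cases hu : u ∈ D
      · rw [if_pos hu]
        constructor
        · intro h
          left
          refine ⟨hu, ?_⟩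
          obtain ⟨t, ⟨q, rfl, hq⟩, hat⟩ := exists_lt_of_lt_csSup (hAne u hu) h
          exact ⟨⟨q, hat⟩, hq⟩
        · rintro (⟨_, ⟨q, hq⟩, hq1⟩ | h)
          · exact hq.trans_le (le_csSup (hAbd u hu) ⟨q, rfl, hq1⟩)
          · exfalso
            split_ifs at h
            · exact h hu
            · exact h
      · rw [if_neg hu]
        constructor
        · intro h
          right
          rw [if_pos h]
          exact hu
        · rintro (⟨h, _⟩ | h)
          · exact absurd h hu
          · split_ifs at h with h1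
            · exact h1
            · exact absurd h (notMem_empty u)
    rw [this]
    apply MeasurableSet.union
    · apply hDm.inter
      apply MeasurableSet.iUnion
      intro q
      exact measurableSet_eq_fun (measurable_deriv _) measurable_const
    · split_ifs
      · exact hDm.compl
      · exact MeasurableSet.empty
  refine ⟨⟨F, hF, B, hBm, D, hDn, ?_, ?_⟩⟩
  · intro u hu q hq
    rw [hB] at hq
    simp only [if_pos hu] at hq
    obtain ⟨t, ⟨r, rfl, hr⟩, hqr⟩ := exists_lt_of_lt_csSup (hAne u hu) hq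
    have h1 := hmono u hu q r (by exact_mod_cast hqr.le)
    have h2 := (hDg u hu).1 q
    rcases h2.2 with h3 | h3
    · rw [h3, hr] at h1; linarith
    · rw [← h3]; exact h2.1
  · intro u hu q hq
    rw [hB] at hq
    simp only [if_pos hu] at hq
    have h2 := (hDg u hu).1 q
    rcases h2.2 with h3 | h3
    · rw [← h3]; exact h2.1
    · exfalso
      have := le_csSup (hAbd u hu) (show (q : ℝ) ∈ A u from ⟨q, rfl, h3⟩)
      linarith

end Rel

end Pool.Agent.Helper23K9.LR
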