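import Mathlib

set_option autoImplicit false

open MeasureTheory Set Filter Topology
open scoped Pointwise

namespace Pool.Agent.Helper23K9.LR

/-- An additive function on the line which is almost everywhere equal to a measurable function is
linear. -/
theorem additive_linear (c : ℝ →+ ℝ) (k : ℝ → ℝ) (hk : Measurable k) (h : ∀ᵐ t, c t = k t) (t : ℝ) :
    c t = c 1 * t := by
  -- a measurable conull subset
  obtain ⟨M, hM1, hM2, hM3⟩ : ∃ M : Set ℝ, MeasurableSet M ∧ (∀ t ∈ M, c t = k t) ∧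
      volume Mᶜ = 0 := by
    have h0 : volume {t | ¬ c t = k t} = 0 := h
    refine ⟨(toMeasurable volume {t | ¬ c t = k t})ᶜ, (measurableSet_toMeasurable _ _).compl, ?_, ?_⟩
    · intro t ht
      by_contra hcon
      exact ht (subset_toMeasurable _ _ hcon)
    · rw [compl_compl, measure_toMeasurable]
      exact h0
  set A : ℕ → Set ℝ := fun n => (Ioo 0 1 ∩ k ⁻¹' Icc (-(n : ℝ)) n) ∩ M with hA
  have hAm : ∀ n, MeasurableSet (A n) := fun n =>
    (measurableSet_Ioo.inter (hk measurableSet_Icc)).inter hM1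
  obtain ⟨n, hn⟩ : ∃ n, 0 < volume (A n) := by
    by_contra hcon
    push Not at hcon
    have h1 : volume (⋃ n, A n) = 0 := by
      rw [measure_iUnion_null_iff]
      intro n
      exact le_antisymm (hcon n) zero_le
    have h2 : Ioo (0 : ℝ) 1 ⊆ (⋃ n, A n) ∪ Mᶜ := by
      intro t ht
      by_cases htM : t ∈ M
      · left
        obtain ⟨n, hn⟩ := exists_nat_ge |k t|
        rw [mem_iUnion]
        refine ⟨n, ⟨ht, ?_⟩, htM⟩
        exact abs_le.1 hn
      · right; exact htM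
    have h3 : volume (Ioo (0 : ℝ) 1) ≤ 0 := by
      calc volume (Ioo (0 : ℝ) 1) ≤ volume ((⋃ n, A n) ∪ Mᶜ) := measure_mono h2
        _ ≤ volume (⋃ n, A n) + volume Mᶜ := measure_union_le _ _
        _ = 0 := by rw [h1, hM3, add_zero]
    simp at h3
  have hfin : volume (A n) ≠ ⊤ := by
    apply ne_top_of_le_ne_top (b := volume (Ioo (0 : ℝ) 1))
    · simp
    · exact measure_mono (fun t ht => ht.1.1)
  have hnb : A n - A n ∈ 𝓝 (0 : ℝ) :=
    Measure.sub_mem_nhds_zero_of_addHaar_pos_ne_top volume (A n) (hAm n) hn hfin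
  have hcont : Continuous c := by
    apply c.continuous_of_isBounded_nhds_zero hnb
    rw [isBounded_iff_forall_norm_le]
    refine ⟨2 * n, ?_⟩
    rintro y ⟨x, hx, rfl⟩
    obtain ⟨a, ha, b, hb, rfl⟩ := Set.mem_sub.1 hx
    rw [map_sub, hM2 a ha.2, hM2 b hb.2, Real.norm_eq_abs]
    have h1 := ha.1.2
    have h2 := hb.1.2
    simp only [mem_preimage, mem_Icc] at h1 h2
    rw [abs_le]
    constructor <;> linarith [h1.1, h1.2, h2.1, h2.2]
  have h1 := map_real_smul c hcont t 1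
  simp only [smul_eq_mul, mul_one] at h1
  rw [h1, mul_comm]

lemma ae_shift {p : ℝ → Prop} (h : ∀ᵐ u, p u) (w : ℝ) : ∀ᵐ u, p (u + w) :=
  (measurePreserving_add_right volume w).quasiMeasurePreserving.ae h

lemma ae_shift' {p : ℝ → Prop} (h : ∀ᵐ u, p u) (w : ℝ) : ∀ᵐ u, p (w + u) :=
  (measurePreserving_add_left volume w).quasiMeasurePreserving.ae h

/-- The Pexider equation almost everywhere. -/
theorem pexider (f g h : ℝ → ℝ) (hg : Measurable g) (hh : Measurable h)
    (H1 : ∀ᵐ w, ∀ᵐ u, h (u + w) = f u + g w) (H2 : ∀ᵐ u, ∀ᵐ w, h (u + w) = f u + g w) :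
    ∃ κ c c' : ℝ, (∀ᵐ u, f u = κ * u + c) ∧ (∀ᵐ u, g u = κ * u + c') ∧
      ∀ᵐ u, h u = κ * u + (c + c') := by
  set S : Set ℝ := {w | ∀ᵐ u, h (u + w) = f u + g w} with hS
  have hSae : ∀ᵐ w, w ∈ S := H1
  -- increments
  have hinc : ∀ w₀ ∈ S, ∀ w₁ ∈ S, ∀ᵐ z, h (z + (w₀ - w₁)) = h z + (g w₀ - g w₁) := by
    intro w₀ h0 w₁ h1
    have h2 : ∀ᵐ u, h (u + w₀) = h (u + w₁) + (g w₀ - g w₁) := by
      have h0' : ∀ᵐ u, h (u + w₀) = f u + g w₀ := h0
      have h1' : ∀ᵐ u, h (u + w₁) = f u + g w₁ := h1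
      filter_upwards [h0', h1'] with u h3 h4
      rw [h3, h4]; ring
    have h3 := ae_shift h2 (-w₁)
    filter_upwards [h3] with z hz
    rw [show z + -w₁ + w₀ = z + (w₀ - w₁) by ring, show z + -w₁ + w₁ = z by ring] at hz
    exact hz
  have hex : ∀ τ : ℝ, ∃ c : ℝ, ∀ᵐ z, h (z + τ) = h z + c := by
    intro τ
    have h1 : ∀ᵐ w, w ∈ S ∧ w + τ ∈ S := hSae.and (ae_shift hSae τ)
    obtain ⟨w, hw1, hw2⟩ := h1.exists
    refine ⟨g (w + τ) - g w, ?_⟩
    have := hinc (w + τ) hw2 w hw1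
    rwa [show w + τ - w = τ by ring] at this
  choose c hc using hex
  have huniq : ∀ τ a, (∀ᵐ z, h (z + τ) = h z + a) → c τ = a := by
    intro τ a ha
    obtain ⟨z, hz1, hz2⟩ := ((hc τ).and ha).exists
    linarith
  have hadd : ∀ s t, c (s + t) = c s + c t := by
    intro s t
    apply huniq
    have h1 := ae_shift (hc s) t
    filter_upwards [h1, hc t] with z h2 h3
    rw [show z + (s + t) = z + t + s by ring, h2, h3]
    ring
  have hzero : c 0 = 0 := by
    have := hadd 0 0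
    rw [add_zero] at this
    linarith
  let C : ℝ →+ ℝ := { toFun := c, map_zero' := hzero, map_add' := hadd }
  obtain ⟨w₁, hw₁⟩ := hSae.exists
  have hmeas : ∀ᵐ t, C t = g (t + w₁) - g w₁ := by
    filter_upwards [ae_shift hSae w₁] with t ht
    apply huniq
    have := hinc (t + w₁) ht w₁ hw₁
    rwa [show t + w₁ - w₁ = t by ring] at this
  have hlin := additive_linear C (fun t => g (t + w₁) - g w₁)
    ((hg.comp (measurable_id.add_const _)).sub_const _) hmeas
  set κ : ℝ := C 1 with hκ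
  have hcl : ∀ t, c t = κ * t := hlin
  -- `h z - κ z` is almost everywhere constant
  have hk : ∃ D : ℝ, ∀ᵐ z, h z = κ * z + D := by
    have h1 : ∀ τ : ℝ, ∀ᵐ z, h (z + τ) - κ * (z + τ) = h z - κ * z := by
      intro τ
      filter_upwards [hc τ] with z hz
      rw [hz, hcl]; ring
    have h2 : ∀ᵐ τ : ℝ, ∀ᵐ z : ℝ, h (z + τ) - κ * (z + τ) = h z - κ * z :=
      Eventually.of_forall h1
    have hms : MeasurableSet {x : ℝ × ℝ | h (x.2 + x.1) - κ * (x.2 + x.1) = h x.2 - κ * x.2} := by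
      apply measurableSet_eq_fun
      · have : Measurable fun x : ℝ × ℝ => x.2 + x.1 := measurable_snd.add measurable_fst
        exact (hh.comp this).sub (this.const_mul κ)
      · exact (hh.comp measurable_snd).sub (measurable_snd.const_mul κ)
    have h3 := (Measure.ae_ae_comm (μ := (volume : Measure ℝ)) (ν := (volume : Measure ℝ))
      (p := fun τ z => h (z + τ) - κ * (z + τ) = h z - κ * z) hms).1 h2
    obtain ⟨z₀, hz₀⟩ := h3.exists
    refine ⟨h z₀ - κ * z₀, ?_⟩
    have h4 := ae_shift hz₀ (-z₀)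
    filter_upwards [h4] with z hz
    rw [show z₀ + (z + -z₀) = z by ring] at hz
    linarith
  obtain ⟨D, hD⟩ := hk
  -- `f`
  have hf : ∀ᵐ u, f u = κ * u + (κ * w₁ + D - g w₁) := by
    have h1 : ∀ᵐ u, h (u + w₁) = f u + g w₁ := hw₁
    filter_upwards [h1, ae_shift hD w₁] with u h2 h3
    rw [h3] at h2
    linarith
  obtain ⟨u₀, hu₀, hu₁⟩ := (H2.and hf).exists
  refine ⟨κ, κ * w₁ + D - g w₁, κ * u₀ + D - f u₀, hf, ?_, ?_⟩
  · filter_upwards [hu₀, ae_shift' hD u₀] with w h2 h3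
    rw [h3] at h2
    linarith
  · filter_upwards [hD] with z hz
    rw [hz, hu₁]
    ring

end Pool.Agent.Helper23K9.LR
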