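import Mathlib
import Pool.Agent.Helper23K9.LR.Loc
import Pool.Agent.Helper23K9.LR.Pex

set_option autoImplicit false

open MeasureTheory Set Filter Topology
open scoped InnerProductSpace

namespace Pool.Agent.Helper23K9.LR

/-- local to global -/
theorem LK_of_local {E : Type*} [NormedAddCommGroup E] [NormedSpace ℝ E] {h : E → ℝ} {L : ℝ}
    (hc : Continuous h) (hl : ∀ x, ∀ᶠ y in 𝓝 x, |h y - h x| ≤ L * dist y x) : LK L h := by
  intro x y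
  set c : ℝ → E := fun τ => y + τ • (x - y) with hcdef
  have hcc : Continuous c := by fun_prop
  have hdist : ∀ σ τ : ℝ, dist (c σ) (c τ) = |σ - τ| * dist x y := by
    intro σ τ
    rw [hcdef, dist_eq_norm, dist_eq_norm]
    have : y + σ • (x - y) - (y + τ • (x - y)) = (σ - τ) • (x - y) := by
      rw [sub_smul]; abel
    simp only
    rw [this, norm_smul, Real.norm_eq_abs]
  set A : Set ℝ := {τ | |h (c τ) - h y| ≤ L * (τ * dist x y)} with hA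
  have h0 : (0 : ℝ) ∈ A := by
    rw [hA]
    simp [hcdef]
  have hcl : IsClosed (A ∩ Icc 0 1) := by
    apply IsClosed.inter _ isClosed_Icc
    exact isClosed_le (by fun_prop) (by fun_prop)
  have hsub : Icc (0 : ℝ) 1 ⊆ A := by
    apply hcl.Icc_subset_of_forall_mem_nhdsWithin h0
    rintro τ ⟨hτ, hτ0, hτ1⟩
    have h1 : ∀ᶠ σ in 𝓝 τ, |h (c σ) - h (c τ)| ≤ L * dist (c σ) (c τ) :=
      hcc.continuousAt.eventually (hl (c τ))
    filter_upwards [mem_nhdsWithin_of_mem_nhds h1, self_mem_nhdsWithin] with σ h2 h3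
    have h3' : τ < σ := h3
    have h2' : |h (c σ) - h (c τ)| ≤ L * dist (c σ) (c τ) := h2
    rw [hdist, abs_of_pos (sub_pos.2 h3')] at h2'
    have hτ' : |h (c τ) - h y| ≤ L * (τ * dist x y) := hτ
    show |h (c σ) - h y| ≤ L * (σ * dist x y)
    calc |h (c σ) - h y| ≤ |h (c σ) - h (c τ)| + |h (c τ) - h y| := abs_sub_le _ _ _
      _ ≤ L * ((σ - τ) * dist x y) + L * (τ * dist x y) := add_le_add h2' hτ'
      _ = L * (σ * dist x y) := by ring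
  have h1 : |h (c 1) - h y| ≤ L * (1 * dist x y) := hsub (right_mem_Icc.2 zero_le_one)
  have h2 : c 1 = x := by rw [hcdef]; simp
  rw [h2, one_mul] at h1
  exact (le_abs_self _).trans h1

/-- two slopes -/
lemma two_slopes {p q d e L : ℝ} (hp : 0 ≤ p ∧ p ≤ d ∨ d ≤ p ∧ p ≤ 0) (hq : 0 ≤ q ∧ q ≤ e ∨ e ≤ q ∧ q ≤ 0)
    (h1 : |d| ≤ L) (h2 : |e| ≤ L) (h3 : |d + e| ≤ L) : |p + q| ≤ L := by
  rw [abs_le] at *
  rcases hp with hp | hp <;> rcases hq with hq | hq <;> constructor <;> linarith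

lemma slope_between {φ : ℝ → ℝ} (h : Slope φ) (u v : ℝ) :
    0 ≤ φ u - φ v ∧ φ u - φ v ≤ u - v ∨ u - v ≤ φ u - φ v ∧ φ u - φ v ≤ 0 := by
  rcases le_total v u with h1 | h1
  · left; exact h u v h1
  · right
    have := h v u h1
    constructor <;> linarith [this.1, this.2]

/-- clip function -/
noncomputable def clip (l r u : ℝ) : ℝ := Rel.hinge l u - Rel.hinge r u

lemma slope_clip' {l r : ℝ} (h : l ≤ r) : Slope (clip l r) := slope_clip h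

lemma clip_const {l r u : ℝ} (hlr : l ≤ r) (h : u < l ∨ r < u) : ∀ᶠ v in 𝓝 u, clip l r v = clip l r u := by
  unfold clip Rel.hinge
  rcases h with h | h
  · filter_upwards [gt_mem_nhds h] with v hv
    rw [max_eq_right (by linarith), max_eq_right (by linarith), max_eq_right (by linarith),
      max_eq_right (by linarith)]
  · filter_upwards [lt_mem_nhds h] with v hv
    rw [max_eq_left (by linarith), max_eq_left (by linarith), max_eq_left (by linarith),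
      max_eq_left (by linarith)]
    ring

/-- three clips, never simultaneously active -/
lemma three_clips {E : Type*} [NormedAddCommGroup E] [NormedSpace ℝ E] {b₁ b₂ b₃ : E → ℝ} {L : ℝ}
    (h1 : LK L b₁) (h2 : LK L b₂) (h3 : LK L b₃) (h12 : LK L (fun x => b₁ x + b₂ x))
    (h13 : LK L (fun x => b₁ x + b₃ x)) (h23 : LK L (fun x => b₂ x + b₃ x))
    {l₁ r₁ l₂ r₂ l₃ r₃ : ℝ} (k1 : l₁ ≤ r₁) (k2 : l₂ ≤ r₂) (k3 : l₃ ≤ r₃)
    (hne : ∀ x, b₁ x ∈ Icc l₁ r₁ → b₂ x ∈ Icc l₂ r₂ → b₃ x ∈ Icc l₃ r₃ → False) :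
    LK L (fun x => clip l₁ r₁ (b₁ x) + clip l₂ r₂ (b₂ x) + clip l₃ r₃ (b₃ x)) := by
  have c1 := (slope_clip' k1).LK.continuous
  have c2 := (slope_clip' k2).LK.continuous
  have c3 := (slope_clip' k3).LK.continuous
  have d1 := h1.continuous
  have d2 := h2.continuous
  have d3 := h3.continuous
  have two : ∀ {b b' : E → ℝ} (_ : LK L b) (_ : LK L b') (_ : LK L (fun x => b x + b' x)) {l r l' r' : ℝ}
      (_ : l ≤ r) (_ : l' ≤ r') (x y : E),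
      |(clip l r (b x) - clip l r (b y)) + (clip l' r' (b' x) - clip l' r' (b' y))| ≤ L * dist x y := by
    intro b b' hb hb' hbb' l r l' r' k k' x y
    apply two_slopes (slope_between (slope_clip' k) _ _) (slope_between (slope_clip' k') _ _)
    · exact hb.abs x y
    · exact hb'.abs x y
    · have := hbb'.abs x y
      have e : b x + b' x - (b y + b' y) = b x - b y + (b' x - b' y) := by ring
      rwa [e] at this
  apply LK_of_local (by fun_prop)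
  intro x
  by_cases m1 : b₁ x ∈ Icc l₁ r₁
  · by_cases m2 : b₂ x ∈ Icc l₂ r₂
    · have m3 : b₃ x < l₃ ∨ r₃ < b₃ x := by
        by_contra hcon
        push Not at hcon
        exact hne x m1 m2 hcon
      have := d3.continuousAt.eventually (clip_const k3 m3)
      filter_upwards [this] with y hy
      have e := two h1 h2 h12 k1 k2 y x
      rw [hy]
      convert e using 2
      ring
    · have m3 : b₂ x < l₂ ∨ r₂ < b₂ x := by
        by_contra hcon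
        push Not at hcon
        exact m2 hcon
      have := d2.continuousAt.eventually (clip_const k2 m3)
      filter_upwards [this] with y hy
      have e := two h1 h3 h13 k1 k3 y x
      rw [hy]
      convert e using 2
      ring
  · have m3 : b₁ x < l₁ ∨ r₁ < b₁ x := by
      by_contra hcon
      push Not at hcon
      exact m1 hcon
    have := d1.continuousAt.eventually (clip_const k1 m3)
    filter_upwards [this] with y hy
    have e := two h2 h3 h23 k2 k3 y x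
    rw [hy]
    convert e using 2
    ring

namespace Rel

variable {E : Type*} [NormedAddCommGroup E] [InnerProductSpace ℝ E] (S : Rel E)

lemma b_add (ξ η : E) (x : E) : S.b (ξ + η) x = S.b ξ x + S.b η x := by
  have := S.b_comb 1 1 ξ η x
  simpa using this

lemma b_smul (a : ℝ) (ξ : E) (x : E) : S.b (a • ξ) x = a * S.b ξ x := by
  have := S.b_comb a 0 ξ ξ x
  simpa using this

lemma LK_b_add (ξ η : E) : LK ‖ξ + η‖ (fun x => S.b ξ x + S.b η x) := by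
  have h := S.LK_b (ξ + η)
  have h3 : S.b (ξ + η) = fun x => S.b ξ x + S.b η x := by
    funext x
    exact S.b_add ξ η x
  rwa [h3] at h

lemma triple {ξ₁ ξ₂ ξ₃ : E} (u₁ : ‖ξ₁‖ = 1) (u₂ : ‖ξ₂‖ = 1) (u₃ : ‖ξ₃‖ = 1) (s₁₂ : 0 ≤ ⟪ξ₁, ξ₂⟫_ℝ)
    (s₁₃ : 0 ≤ ⟪ξ₁, ξ₃⟫_ℝ) (s₂₃ : 0 ≤ ⟪ξ₂, ξ₃⟫_ℝ) (D₁ : S.Data ξ₁) (D₂ : S.Data ξ₂) (D₃ : S.Data ξ₃) (x : E)
    (hx₁ : ⟪ξ₁, x⟫_ℝ ∈ D₁.D) (hx₂ : ⟪ξ₂, x⟫_ℝ ∈ D₂.D) (hx₃ : ⟪ξ₃, x⟫_ℝ ∈ D₃.D)
    {l₁ r₁ l₂ r₂ l₃ r₃ : ℚ} (a₁ : (l₁ : ℝ) < D₁.B ⟪ξ₁, x⟫_ℝ) (a₂ : (l₂ : ℝ) < D₂.B ⟪ξ₂, x⟫_ℝ)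
    (a₃ : (l₃ : ℝ) < D₃.B ⟪ξ₃, x⟫_ℝ) (c₁ : D₁.B ⟪ξ₁, x⟫_ℝ < (r₁ : ℝ)) (c₂ : D₂.B ⟪ξ₂, x⟫_ℝ < (r₂ : ℝ))
    (c₃ : D₃.B ⟪ξ₃, x⟫_ℝ < (r₃ : ℝ))
    (hne : ∀ x, S.b ξ₁ x ∈ Icc (l₁ : ℝ) r₁ → S.b ξ₂ x ∈ Icc (l₂ : ℝ) r₂ → S.b ξ₃ x ∈ Icc (l₃ : ℝ) r₃ → False) :
    False := by
  set L : ℝ := max 1 (max ‖ξ₁ + ξ₂‖ (max ‖ξ₁ + ξ₃‖ ‖ξ₂ + ξ₃‖)) with hL
  have L1 : 1 ≤ L := le_max_left _ _
  have L12 : ‖ξ₁ + ξ₂‖ ≤ L := (le_max_left _ _).trans (le_max_right _ _)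
  have L13 : ‖ξ₁ + ξ₃‖ ≤ L := (le_max_left _ _).trans ((le_max_right _ _).trans (le_max_right _ _))
  have L23 : ‖ξ₂ + ξ₃‖ ≤ L := (le_max_right _ _).trans ((le_max_right _ _).trans (le_max_right _ _))
  have g1 := three_clips (l₁ := l₁) (r₁ := r₁) (l₂ := l₂) (r₂ := r₂) (l₃ := l₃) (r₃ := r₃)
    ((S.LK_b ξ₁).mono (u₁.le.trans L1)) ((S.LK_b ξ₂).mono (u₂.le.trans L1))
    ((S.LK_b ξ₃).mono (u₃.le.trans L1)) ((S.LK_b_add ξ₁ ξ₂).mono L12) ((S.LK_b_add ξ₁ ξ₃).mono L13)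
    ((S.LK_b_add ξ₂ ξ₃).mono L23) (a₁.trans c₁).le (a₂.trans c₂).le (a₃.trans c₃).le hne
  have g2 : S.R (fun x => (D₁.F l₁ ⟪ξ₁, x⟫_ℝ - D₁.F r₁ ⟪ξ₁, x⟫_ℝ) + (D₂.F l₂ ⟪ξ₂, x⟫_ℝ - D₂.F r₂ ⟪ξ₂, x⟫_ℝ) +
      (D₃.F l₃ ⟪ξ₃, x⟫_ℝ - D₃.F r₃ ⟪ξ₃, x⟫_ℝ))
      (fun x => clip l₁ r₁ (S.b ξ₁ x) + clip l₂ r₂ (S.b ξ₂ x) + clip l₃ r₃ (S.b ξ₃ x)) := by
    unfold clip
    exact Rel.add (Rel.add (Rel.sub (D₁.hF _) (D₁.hF _)) (Rel.sub (D₂.hF _) (D₂.hF _)))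
      (Rel.sub (D₃.hF _) (D₃.hF _))
  have g3 := (S.iso g2 L).2 g1
  set v : E := ξ₁ + ξ₂ + ξ₃ with hv
  have hvsq : ‖v‖ ^ 2 = 3 + 2 * (⟪ξ₁, ξ₂⟫_ℝ + ⟪ξ₁, ξ₃⟫_ℝ + ⟪ξ₂, ξ₃⟫_ℝ) := by
    rw [hv, norm_add_sq_real, norm_add_sq_real, u₁, u₂, u₃, inner_add_left]
    ring
  have q12 : ‖ξ₁ + ξ₂‖ ^ 2 = 2 + 2 * ⟪ξ₁, ξ₂⟫_ℝ := by rw [norm_add_sq_real, u₁, u₂]; ring
  have q13 : ‖ξ₁ + ξ₃‖ ^ 2 = 2 + 2 * ⟪ξ₁, ξ₃⟫_ℝ := by rw [norm_add_sq_real, u₁, u₃]; ring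
  have q23 : ‖ξ₂ + ξ₃‖ ^ 2 = 2 + 2 * ⟪ξ₂, ξ₃⟫_ℝ := by rw [norm_add_sq_real, u₂, u₃]; ring
  have hLv : L < ‖v‖ := by
    rw [hL]
    refine max_lt ?_ (max_lt ?_ (max_lt ?_ ?_))
    · apply lt_of_pow_lt_pow_left₀ 2 (norm_nonneg _)
      rw [hvsq]; linarith
    · apply lt_of_pow_lt_pow_left₀ 2 (norm_nonneg _)
      rw [hvsq, q12]; linarith
    · apply lt_of_pow_lt_pow_left₀ 2 (norm_nonneg _)
      rw [hvsq, q13]; linarith
    · apply lt_of_pow_lt_pow_left₀ 2 (norm_nonneg _)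
      rw [hvsq, q23]; linarith
  -- derivatives
  have der : ∀ {ξ : E} (D : S.Data ξ) (_ : ⟪ξ, x⟫_ℝ ∈ D.D) (l r : ℚ) (_ : (l : ℝ) < D.B ⟪ξ, x⟫_ℝ)
      (_ : D.B ⟪ξ, x⟫_ℝ < (r : ℝ)),
      HasDerivAt (fun τ : ℝ => D.F l ⟪ξ, x + τ • v⟫_ℝ - D.F r ⟪ξ, x + τ • v⟫_ℝ) ⟪ξ, v⟫_ℝ 0 := by
    intro ξ D hx l r hl hr
    have e1 := D.one _ hx l hl
    have e2 := D.zero _ hx r hr
    have e3 : HasDerivAt (fun τ : ℝ => ⟪ξ, x + τ • v⟫_ℝ) ⟪ξ, v⟫_ℝ 0 := by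
      have : (fun τ : ℝ => ⟪ξ, x + τ • v⟫_ℝ) = fun τ : ℝ => ⟪ξ, x⟫_ℝ + τ * ⟪ξ, v⟫_ℝ := by
        funext τ
        rw [inner_add_right, real_inner_smul_right]
      rw [this]
      have h5 : HasDerivAt (fun τ : ℝ => τ * ⟪ξ, v⟫_ℝ) (1 * ⟪ξ, v⟫_ℝ) 0 :=
        (hasDerivAt_id (0 : ℝ)).mul_const _
      rw [one_mul] at h5
      exact h5.const_add _
    have e0 : (fun τ : ℝ => ⟪ξ, x + τ • v⟫_ℝ) 0 = ⟪ξ, x⟫_ℝ := by simp
    rw [← e0] at e1 e2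
    have e4 := e1.comp (0 : ℝ) e3
    have e5 := e2.comp (0 : ℝ) e3
    have e6 := e4.sub e5
    rw [one_mul, zero_mul, sub_zero] at e6
    exact e6
  have hd := ((der D₁ hx₁ l₁ r₁ a₁ c₁).add (der D₂ hx₂ l₂ r₂ a₂ c₂)).add (der D₃ hx₃ l₃ r₃ a₃ c₃)
  have hv2 : ⟪ξ₁, v⟫_ℝ + ⟪ξ₂, v⟫_ℝ + ⟪ξ₃, v⟫_ℝ = ‖v‖ ^ 2 := by
    rw [← inner_add_left, ← inner_add_left, ← hv, real_inner_self_eq_norm_sq]
  rw [hv2] at hd
  -- upper bound for the derivative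
  have hub : ‖v‖ ^ 2 ≤ L * ‖v‖ := by
    have h6 := hd.hasDerivWithinAt (s := Ici 0)
    rw [hasDerivWithinAt_iff_tendsto_slope] at h6
    have h7 : (𝓝[Ici 0 \ {0}] (0 : ℝ)).NeBot := by
      have : Ici (0 : ℝ) \ {0} = Ioi 0 := by
        ext τ
        simp only [Set.mem_sdiff, mem_Ici, mem_singleton_iff, mem_Ioi]
        constructor
        · rintro ⟨h1, h2⟩
          exact lt_of_le_of_ne h1 (Ne.symm h2)
        · intro h1
          exact ⟨h1.le, h1.ne'⟩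
      rw [this]; infer_instance
    apply le_of_tendsto h6
    filter_upwards [self_mem_nhdsWithin] with τ hτ
    have hτ0 : 0 < τ := lt_of_le_of_ne hτ.1 (Ne.symm hτ.2)
    have h8 := g3 (x + τ • v) (x + (0 : ℝ) • v)
    have h9 : dist (x + τ • v) (x + (0 : ℝ) • v) = τ * ‖v‖ := by
      rw [dist_eq_norm]
      have : x + τ • v - (x + (0 : ℝ) • v) = τ • v := by rw [zero_smul]; abel
      rw [this, norm_smul, Real.norm_eq_abs, abs_of_pos hτ0]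
    rw [h9] at h8
    rw [slope_def_field, sub_zero, div_le_iff₀ hτ0]
    simp only [Pi.add_apply] at h8 ⊢
    calc _ ≤ L * (τ * ‖v‖) := h8
      _ = L * ‖v‖ * τ := by ring
  have hv0 : 0 < ‖v‖ := lt_of_lt_of_le zero_lt_one (L1.trans hLv.le)
  nlinarith

/-- The functional equation. -/
theorem functional {ξ η : E} (hξ : ‖ξ‖ = 1) (hη : ‖η‖ = 1) (h : ⟪ξ, η⟫_ℝ = 0) {α α' : ℝ} (hα : 0 < α)
    (hα' : 0 < α') (hαα' : α ^ 2 + α' ^ 2 = 1) (D₁ : S.Data ξ) (D₂ : S.Data η)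
    (D₃ : S.Data (α • ξ + α' • η)) {u w : ℝ} (hu : u ∈ D₁.D) (hw : w ∈ D₂.D) (huw : α * u + α' * w ∈ D₃.D) :
    D₃.B (α * u + α' * w) = α * D₁.B u + α' * D₂.B w := by
  by_contra hcon
  set x : E := u • ξ + w • η with hx
  have i1 : ⟪ξ, x⟫_ℝ = u := by
    rw [hx, inner_add_right, real_inner_smul_right, real_inner_smul_right, h,
      real_inner_self_eq_norm_sq, hξ]
    ring
  have i2 : ⟪η, x⟫_ℝ = w := by
    rw [hx, inner_add_right, real_inner_smul_right, real_inner_smul_right, real_inner_comm, h,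
      real_inner_self_eq_norm_sq, hη]
    ring
  have i3 : ⟪α • ξ + α' • η, x⟫_ℝ = α * u + α' * w := by
    rw [inner_add_left, real_inner_smul_left, real_inner_smul_left, i1, i2]
  have u3 : ‖α • ξ + α' • η‖ = 1 := by
    have := norm_comb_sq hξ hη h α α'
    rw [hαα'] at this
    have h0 := norm_nonneg (α • ξ + α' • η)
    nlinarith
  have s13 : ⟪ξ, α • ξ + α' • η⟫_ℝ = α := by
    rw [inner_add_right, real_inner_smul_right, real_inner_smul_right, h,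
      real_inner_self_eq_norm_sq, hξ]
    ring
  have s23 : ⟪η, α • ξ + α' • η⟫_ℝ = α' := by
    rw [inner_add_right, real_inner_smul_right, real_inner_smul_right, real_inner_comm, h,
      real_inner_self_eq_norm_sq, hη]
    ring
  -- choose the intervals
  set p := D₁.B u with hp
  set q := D₂.B w with hq
  set r := D₃.B (α * u + α' * w) with hr
  have hα1 : α ≤ 1 := by nlinarith
  have hα'1 : α' ≤ 1 := by nlinarith
  set ε := |r - (α * p + α' * q)| / 4 with hε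
  have hε0 : 0 < ε := by
    have : 0 < |r - (α * p + α' * q)| := abs_pos.2 (sub_ne_zero.2 hcon)
    positivity
  obtain ⟨l₁, a₁, a₁'⟩ := exists_rat_btwn (show p - ε < p by linarith)
  obtain ⟨r₁, c₁, c₁'⟩ := exists_rat_btwn (show p < p + ε by linarith)
  obtain ⟨l₂, a₂, a₂'⟩ := exists_rat_btwn (show q - ε < q by linarith)
  obtain ⟨r₂, c₂, c₂'⟩ := exists_rat_btwn (show q < q + ε by linarith)
  obtain ⟨l₃, a₃, a₃'⟩ := exists_rat_btwn (show r - ε < r by linarith)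
  obtain ⟨r₃, c₃, c₃'⟩ := exists_rat_btwn (show r < r + ε by linarith)
  apply S.triple hξ hη u3 h.ge (by rw [s13]; exact hα.le) (by rw [s23]; exact hα'.le) D₁ D₂ D₃ x
    (by rwa [i1]) (by rwa [i2]) (by rwa [i3]) (l₁ := l₁) (r₁ := r₁) (l₂ := l₂) (r₂ := r₂) (l₃ := l₃)
    (r₃ := r₃) (by rwa [i1]) (by rwa [i2]) (by rwa [i3]) (by rwa [i1]) (by rwa [i2]) (by rwa [i3])
  intro z hz1 hz2 hz3
  rw [b_comb] at hz3
  have e1 : |S.b ξ z - p| < ε := by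
    rw [abs_lt]; constructor <;> linarith [hz1.1, hz1.2]
  have e2 : |S.b η z - q| < ε := by
    rw [abs_lt]; constructor <;> linarith [hz2.1, hz2.2]
  have e3 : |r - (α * S.b ξ z + α' * S.b η z)| < ε := by
    rw [abs_lt]; constructor <;> linarith [hz3.1, hz3.2]
  have e4 : |r - (α * p + α' * q)| ≤ |r - (α * S.b ξ z + α' * S.b η z)| + (α * |S.b ξ z - p| + α' * |S.b η z - q|) := by
    have : r - (α * p + α' * q) = (r - (α * S.b ξ z + α' * S.b η z)) + (α * (S.b ξ z - p) + α' * (S.b η z - q)) := by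
      ring
    rw [this]
    refine (abs_add_le _ _).trans (add_le_add le_rfl ((abs_add_le _ _).trans ?_))
    rw [abs_mul, abs_mul, abs_of_pos hα, abs_of_pos hα']
  have e5 : α * |S.b ξ z - p| ≤ ε := by
    have := abs_nonneg (S.b ξ z - p)
    nlinarith
  have e6 : α' * |S.b η z - q| ≤ ε := by
    have := abs_nonneg (S.b η z - q)
    nlinarith
  have e7 : |r - (α * p + α' * q)| = 4 * ε := by rw [hε]; ring
  linarith

end Rel

end Pool.Agent.Helper23K9.LR
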