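import Mathlib
import Pool.Agent.Helper23K9.LR.Fun

set_option autoImplicit false

open MeasureTheory Set Filter Topology
open scoped InnerProductSpace

namespace Pool.Agent.Helper23K9.LR

lemma ae_scale {p : ℝ → Prop} (h : ∀ᵐ u, p u) {a : ℝ} (ha : a ≠ 0) : ∀ᵐ u, p (a * u) := by
  rw [ae_iff] at h ⊢
  have : {u | ¬ p (a * u)} = (fun u => a * u) ⁻¹' {u | ¬ p u} := rfl
  rw [this, Real.volume_preimage_mul_left ha, h, mul_zero]

lemma affine_uniq {κ c κ' c' : ℝ} (h : ∀ᵐ u : ℝ, κ * u + c = κ' * u + c') : κ = κ' ∧ c = c' := by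
  obtain ⟨u, hu, hu'⟩ := (h.and (ae_shift h 1)).exists
  have : κ = κ' := by linarith
  subst this
  exact ⟨rfl, by linarith⟩

/-- a Lipschitz function whose derivative vanishes almost everywhere is constant -/
lemma const_of_deriv_zero {K : ℝ} {G : ℝ → ℝ} (hG : LK K G) (h : ∀ᵐ u, HasDerivAt G 0 u) (u v : ℝ) :
    G u = G v := by
  have h1 : ∫ s in v..u, deriv G s = G u - G v := by
    apply AbsolutelyContinuousOnInterval.integral_deriv_eq_sub
    exact (hG.lipschitz.lipschitzOnWith).absolutelyContinuousOnInterval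
  have h2 : ∫ s in v..u, deriv G s = 0 := by
    rw [intervalIntegral.integral_congr_ae (g := fun _ => (0 : ℝ))]
    · simp
    · filter_upwards [h] with s hs _
      exact hs.deriv
  linarith

namespace Rel

section general
variable {M : Type*} [PseudoMetricSpace M] {S : Rel M}

lemma R_const (S : Rel M) [Nonempty M] (a c : ℝ) : S.R (fun _ => a) (fun _ => c) := by
  obtain ⟨g, hg⟩ := S.tot (fun _ => (0 : ℝ)) ⟨0, fun x y => by simp⟩
  have := Rel.smul hg 0
  exact S.congr this (fun x y => by simp) (fun x y => by simp)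

/-- closedness for bounded pointwise convergence -/
lemma closed {f g : ℕ → M → ℝ} {f0 g0 : M → ℝ} {K : ℝ} (h : ∀ n, S.R (f n) (g n)) (hK : ∀ n, LK K (f n))
    (hf : ∀ x y, Tendsto (fun n => f n x - f n y) atTop (𝓝 (f0 x - f0 y)))
    (hg : ∀ x y, Tendsto (fun n => g n x - g n y) atTop (𝓝 (g0 x - g0 y))) : S.R f0 g0 := by
  have h0 : LK K f0 := fun x y => le_of_tendsto' (hf x y) (fun n => hK n x y)
  obtain ⟨g1, hg1⟩ := S.tot f0 ⟨K, h0⟩
  refine S.congr hg1 (fun _ _ => rfl) (fun x y => ?_)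
  exact tendsto_nhds_unique (S.cont f g f0 g1 K h hK hg1 hf x y) (hg x y)

end general

variable {E : Type*} [NormedAddCommGroup E] [InnerProductSpace ℝ E] (S : Rel E)

lemma affine_pair {ξ η : E} (hξ : ‖ξ‖ = 1) (hη : ‖η‖ = 1) (h : ⟪ξ, η⟫_ℝ = 0) (D₁ : S.Data ξ)
    (D₂ : S.Data η) : ∃ κ c c' : ℝ, (∀ᵐ u, D₁.B u = κ * u + c) ∧ ∀ᵐ w, D₂.B w = κ * w + c' := by
  set r : ℝ := (Real.sqrt 2)⁻¹ with hr
  have hr0 : 0 < r := by positivity
  have hr1 : r ^ 2 + r ^ 2 = 1 := by
    rw [hr, inv_pow, Real.sq_sqrt (by norm_num)]; norm_num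
  have u3 : ‖r • ξ + r • η‖ = 1 := by
    have := norm_comb_sq hξ hη h r r
    rw [hr1] at this
    have h0 := norm_nonneg (r • ξ + r • η)
    nlinarith
  obtain ⟨D₃⟩ := S.exists_data u3
  obtain ⟨κ, c, c', h1, h2, h3⟩ := pexider (fun u => r * D₁.B (r⁻¹ * u)) (fun w => r * D₂.B (r⁻¹ * w)) D₃.B
    (by
      have := D₂.hB
      fun_prop) D₃.hB
    (by
      filter_upwards [ae_scale D₂.hD (inv_ne_zero hr0.ne')] with w hw
      filter_upwards [ae_scale D₁.hD (inv_ne_zero hr0.ne'), ae_shift D₃.hD w] with u hu huw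
      have e : r * (r⁻¹ * u) + r * (r⁻¹ * w) = u + w := by field_simp
      have := S.functional hξ hη h hr0 hr0 hr1 D₁ D₂ D₃ hu hw (by rwa [e])
      rwa [e] at this)
    (by
      filter_upwards [ae_scale D₁.hD (inv_ne_zero hr0.ne')] with u hu
      filter_upwards [ae_scale D₂.hD (inv_ne_zero hr0.ne'), ae_shift' D₃.hD u] with w hw huw
      have e : r * (r⁻¹ * u) + r * (r⁻¹ * w) = u + w := by field_simp
      have := S.functional hξ hη h hr0 hr0 hr1 D₁ D₂ D₃ hu hw (by rwa [e])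
      rwa [e] at this)
  refine ⟨κ, c / r, c' / r, ?_, ?_⟩
  · filter_upwards [ae_scale h1 hr0.ne'] with u hu
    have e : r⁻¹ * (r * u) = u := by field_simp
    rw [e] at hu
    field_simp
    linarith
  · filter_upwards [ae_scale h2 hr0.ne'] with u hu
    have e : r⁻¹ * (r * u) = u := by field_simp
    rw [e] at hu
    field_simp
    linarith

lemma affine_third {ξ η : E} (hξ : ‖ξ‖ = 1) (hη : ‖η‖ = 1) (h : ⟪ξ, η⟫_ℝ = 0) (D₁ : S.Data ξ)
    (D₂ : S.Data η) {κ c c' : ℝ} (h1 : ∀ᵐ u, D₁.B u = κ * u + c) (h2 : ∀ᵐ w, D₂.B w = κ * w + c')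
    {α α' : ℝ} (hα : 0 < α) (hα' : 0 < α') (hαα' : α ^ 2 + α' ^ 2 = 1) (D₃ : S.Data (α • ξ + α' • η)) :
    ∀ᵐ s, D₃.B s = κ * s + (α * c + α' * c') := by
  obtain ⟨w, hw, hw'⟩ := (D₂.hD.and h2).exists
  have e1 := ae_shift (ae_scale (D₁.hD.and h1) (inv_ne_zero hα.ne')) (-(α' * w))
  filter_upwards [e1, D₃.hD] with s hs hs'
  have e : α * (α⁻¹ * (s + -(α' * w))) + α' * w = s := by field_simp; ring
  have := S.functional hξ hη h hα hα' hαα' D₁ D₂ D₃ hs.1 hw (by rwa [e])
  rw [e, hs.2, hw'] at this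
  rw [this]
  field_simp
  ring

lemma Data.slope {ξ : E} (hξ : ‖ξ‖ = 1) (D : S.Data ξ) (t : ℝ) : Slope (D.F t) :=
  S.slope_transfer hξ (D.hF t) (slope_hinge t)

lemma hinge_lt {t u : ℝ} (h : u < t) : hinge t u = 0 := by
  unfold hinge; rw [max_eq_right (by linarith)]

lemma hinge_gt {t u : ℝ} (h : t < u) : hinge t u = u - t := by
  unfold hinge; rw [max_eq_left (by linarith)]

lemma kappa_ne_zero {ξ : E} (hξ : ‖ξ‖ = 1) (D : S.Data ξ) {c : ℝ} (h : ∀ᵐ u, D.B u = c) : False := by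
  have hin : ∀ w : ℝ, ⟪ξ, w • ξ⟫_ℝ = w := fun w => by
    rw [real_inner_smul_right, real_inner_self_eq_norm_sq, hξ]; ring
  -- `b ξ` is not constant
  obtain ⟨x, y, hxy⟩ : ∃ x y, S.b ξ y < S.b ξ x := by
    by_contra hcon
    push Not at hcon
    have h1 : LK 0 (S.b ξ) := fun x y => by
      have := hcon x y
      linarith
    have h2 := (S.iso (S.R_b ξ) 0).2 h1 ((1 : ℝ) • ξ) ((0 : ℝ) • ξ)
    beta_reduce at h2
    rw [hin, hin] at h2
    linarith
  -- a rational different from `c`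
  obtain ⟨t, ht1, ht2, ht3⟩ : ∃ t : ℚ, S.b ξ y < t ∧ (t : ℝ) < S.b ξ x ∧ (t : ℝ) ≠ c := by
    obtain ⟨t, ht1, ht2⟩ := exists_rat_btwn hxy
    obtain ⟨t', ht1', ht2'⟩ := exists_rat_btwn ht1
    by_cases hc : (t : ℝ) = c
    · exact ⟨t', ht1', ht2'.trans ht2, by rw [← hc]; exact ht2'.ne⟩
    · exact ⟨t, ht1, ht2, hc⟩
  have hS := Data.slope S hξ D t
  rcases lt_or_gt_of_ne ht3 with h3 | h3
  · -- `F t` is the identity up to a constant
    have e1 : ∀ u v, (fun u => D.F t u - u) u = (fun u => D.F t u - u) v := by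
      apply const_of_deriv_zero (K := 2)
      · intro u v
        have := hS.LK.abs u v
        rw [Real.dist_eq] at this ⊢
        have h4 := le_abs_self (D.F t u - D.F t v)
        have h5 := neg_abs_le (u - v)
        linarith
      · filter_upwards [h, D.hD] with u hu huD
        have := (D.one u huD t (by rw [hu]; exact h3)).sub (hasDerivAt_id u)
        rw [sub_self] at this
        exact this
    have h4 : S.R (fun x => ⟪ξ, x⟫_ℝ) (fun x => hinge t (S.b ξ x)) :=
      S.congr (D.hF t) (fun x y => by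
        have := e1 ⟪ξ, x⟫_ℝ ⟪ξ, y⟫_ℝ
        beta_reduce at this
        linarith) (fun _ _ => rfl)
    have h5 := uniq h4 (S.R_b ξ) x y
    beta_reduce at h5
    rw [hinge_gt ht2, hinge_lt ht1] at h5
    linarith
  · have e1 : ∀ u v, D.F t u = D.F t v := by
      apply const_of_deriv_zero hS.LK
      filter_upwards [h, D.hD] with u hu huD
      exact D.zero u huD t (by rw [hu]; exact h3)
    have h4 : S.R (fun _ => 0) (fun x => hinge t (S.b ξ x)) :=
      S.congr (D.hF t) (fun x y => by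
        have := e1 ⟪ξ, x⟫_ℝ ⟪ξ, y⟫_ℝ
        linarith) (fun _ _ => rfl)
    have h5 := uniq h4 (S.R_const 0 0) x y
    beta_reduce at h5
    rw [hinge_gt ht2, hinge_lt ht1] at h5
    linarith

/-- the hinge relation -/
def Hin (κ : ℝ) (x : E) (c : ℝ) : Prop :=
  ∀ t : ℝ, S.R (fun y => hinge t (κ * ⟪x, y⟫_ℝ + c)) (fun y => κ * hinge t (S.b x y))

lemma hinge_lk_shift (s t : ℝ) (u : ℝ) : |hinge s u - hinge t u| ≤ |s - t| := by
  unfold hinge
  have h1 := abs_max_sub_max_le_abs (u - s) (u - t) 0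
  refine h1.trans (le_of_eq ?_)
  rw [abs_sub_comm]
  congr 1
  ring

lemma hinge_tendsto {q : ℕ → ℝ} {t : ℝ} (h : Tendsto q atTop (𝓝 t)) (u : ℝ) :
    Tendsto (fun n => hinge (q n) u) atTop (𝓝 (hinge t u)) := by
  unfold hinge
  exact (tendsto_const_nhds.sub h).max tendsto_const_nhds

lemma hin_of_data {ξ : E} (hξ : ‖ξ‖ = 1) (D : S.Data ξ) {κ c : ℝ} (hκ : κ ≠ 0)
    (h : ∀ᵐ u, D.B u = κ * u + c) : S.Hin κ ξ c := by
  have key : ∀ t : ℚ, S.R (fun y => hinge t (κ * ⟪ξ, y⟫_ℝ + c)) (fun y => κ * hinge t (S.b ξ y)) := by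
    intro t
    have hS := Data.slope S hξ D t
    have e1 : ∀ u v, (fun u => κ * D.F t u - hinge t (κ * u + c)) u =
        (fun u => κ * D.F t u - hinge t (κ * u + c)) v := by
      have k1 : LK (|κ| * 1) (fun u => κ * D.F t u) := hS.LK.const_mul κ
      have k2 : LK (1 * (|κ| * 1)) (fun u : ℝ => hinge t (κ * u + c)) := by
        apply LK.comp_real zero_le_one (LK_hinge_real t)
        apply LK.add_const
        apply LK.const_mul
        intro u v
        rw [Real.dist_eq, one_mul]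
        exact le_abs_self _
      have k3 := k1.add k2.neg
      apply const_of_deriv_zero (K := |κ| * 1 + 1 * (|κ| * 1))
      · intro u v
        have := k3 u v
        beta_reduce at this ⊢
        linarith
      · have h0 : ∀ᵐ u : ℝ, κ * u + c ≠ t := by
          have : {u : ℝ | ¬ (κ * u + c ≠ t)} ⊆ {(t - c) / κ} := by
            intro u hu
            have hu' : κ * u + c = t := by
              by_contra hcon
              exact hu hcon
            rw [mem_singleton_iff]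
            field_simp
            linarith
          rw [ae_iff]
          exact measure_mono_null this (by simp)
        filter_upwards [h, D.hD, h0] with u hu huD hu0
        have d0 : HasDerivAt (fun u => κ * u + c) κ u := by
          have := ((hasDerivAt_id u).const_mul κ).add_const c
          rwa [mul_one] at this
        rcases lt_or_gt_of_ne hu0 with h3 | h3
        · have d1 := (D.zero u huD t (by rw [hu]; exact h3)).const_mul κ
          have d2 : HasDerivAt (fun u => hinge t (κ * u + c)) 0 u := by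
            apply (hasDerivAt_const u (0 : ℝ)).congr_of_eventuallyEq
            filter_upwards [d0.continuousAt.eventually (gt_mem_nhds h3)] with v hv
            exact hinge_lt hv
          have d3 := d1.sub d2
          rw [mul_zero, sub_zero] at d3
          exact d3
        · have d1 := (D.one u huD t (by rw [hu]; exact h3)).const_mul κ
          have d2 : HasDerivAt (fun u => hinge t (κ * u + c)) κ u := by
            apply (d0.sub_const (t : ℝ)).congr_of_eventuallyEq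
            filter_upwards [d0.continuousAt.eventually (lt_mem_nhds h3)] with v hv
            exact hinge_gt hv
          have d3 := d1.sub d2
          rw [mul_one, sub_self] at d3
          exact d3
    refine S.congr (Rel.smul (D.hF t) κ) (fun x y => ?_) (fun _ _ => rfl)
    have := e1 ⟪ξ, x⟫_ℝ ⟪ξ, y⟫_ℝ
    beta_reduce at this
    linarith
  intro t
  obtain ⟨q, _, hq⟩ : ∃ q : ℕ → ℚ, (∀ n, (q n : ℝ) < t) ∧ Tendsto (fun n => (q n : ℝ)) atTop (𝓝 t) := by
    choose q hq1 hq2 using fun n : ℕ => exists_rat_btwn (show t - 1 / ((n : ℝ) + 1) < t by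
      have : 0 < 1 / ((n : ℝ) + 1) := by positivity
      linarith)
    refine ⟨q, hq2, ?_⟩
    have h1 : Tendsto (fun n : ℕ => t - 1 / ((n : ℝ) + 1)) atTop (𝓝 (t - 0)) :=
      tendsto_const_nhds.sub tendsto_one_div_add_atTop_nhds_zero_nat
    rw [sub_zero] at h1
    exact tendsto_of_tendsto_of_tendsto_of_le_of_le h1 tendsto_const_nhds (fun n => (hq1 n).le)
      (fun n => (hq2 n).le)
  refine closed (K := 1 * (|κ| * ‖ξ‖)) (fun n => key (q n)) (fun n => ?_) (fun x y => ?_) (fun x y => ?_)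
  · apply LK.comp_real zero_le_one (LK_hinge_real _)
    exact ((LK_inner ξ).const_mul κ).add_const c
  · exact (hinge_tendsto hq _).sub (hinge_tendsto hq _)
  · exact ((hinge_tendsto hq _).const_mul κ).sub ((hinge_tendsto hq _).const_mul κ)

lemma hin_neg {κ c : ℝ} {x : E} (h : S.Hin κ x c) : S.Hin κ (-x) (-c) := by
  intro t
  have hh : ∀ w, hinge t (-w) = hinge (-t) w - w - t := by
    intro w
    unfold hinge
    rcases le_total (w + t) 0 with h1 | h1
    · rw [max_eq_left (by linarith), max_eq_right (by linarith)]; ring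
    · rw [max_eq_right (by linarith), max_eq_left (by linarith)]; ring
  have hb : ∀ y, S.b (-x) y = - S.b x y := by
    intro y
    have := S.b_smul (-1) x y
    simpa using this
  refine S.congr (Rel.sub (h (-t)) (Rel.smul (S.R_b x) κ)) (fun y z => ?_) (fun y z => ?_)
  · have e : ∀ y, κ * ⟪-x, y⟫_ℝ + -c = -(κ * ⟪x, y⟫_ℝ + c) := by
      intro y; rw [inner_neg_left]; ring
    simp only [e, hh]
    ring
  · simp only [hb, hh]
    ring

lemma hin_zero (κ : ℝ) : S.Hin κ 0 0 := by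
  intro t
  have hb : ∀ y, S.b 0 y = 0 := by
    intro y
    have := S.b_smul 0 0 y
    simpa using this
  refine S.congr (S.R_const 0 0) (fun y z => ?_) (fun y z => ?_)
  · simp
  · simp [hb]

lemma hin_pos {κ c : ℝ} {x : E} (h : S.Hin κ x c) {r : ℝ} (hr : 0 < r) : S.Hin κ (r • x) (r * c) := by
  intro t
  have hh : ∀ w, hinge t (r * w) = r * hinge (t / r) w := by
    intro w
    unfold hinge
    rw [mul_max_of_nonneg _ _ hr.le, mul_zero]
    congr 1
    field_simp
  refine S.congr (Rel.smul (h (t / r)) r) (fun y z => ?_) (fun y z => ?_)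
  · have e : ∀ y, κ * ⟪r • x, y⟫_ℝ + r * c = r * (κ * ⟪x, y⟫_ℝ + c) := by
      intro y; rw [real_inner_smul_left]; ring
    simp only [e, hh]
  · simp only [b_smul, hh]
    ring

lemma hin_smul {κ c : ℝ} {x : E} (h : S.Hin κ x c) (r : ℝ) : S.Hin κ (r • x) (r * c) := by
  rcases lt_trichotomy r 0 with hr | hr | hr
  · have := S.hin_pos (S.hin_neg h) (neg_pos.2 hr)
    simpa using this
  · rw [hr]
    simpa using S.hin_zero κ
  · exact S.hin_pos h hr

lemma hin_uniq {κ c κ' c' : ℝ} {x : E} (hx : x ≠ 0) (hκ : κ ≠ 0) (hκ' : κ' ≠ 0) (h : S.Hin κ x c)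
    (h' : S.Hin κ' x c') : κ = κ' ∧ c = c' := by
  have hin : ∀ w : ℝ, ⟪x, (w / ‖x‖ ^ 2) • x⟫_ℝ = w := fun w => by
    rw [real_inner_smul_right, real_inner_self_eq_norm_sq]
    have : ‖x‖ ≠ 0 := norm_ne_zero_iff.2 hx
    field_simp
  have key : ∀ t s s' : ℝ, κ' * hinge t (κ * s + c) - κ' * hinge t (κ * s' + c) =
      κ * hinge t (κ' * s + c') - κ * hinge t (κ' * s' + c') := by
    intro t s s'
    have h1 := Rel.smul (h t) κ'
    have h2 := Rel.smul (h' t) κ
    have e : (fun y => κ' * (κ * hinge t (S.b x y))) = fun y => κ * (κ' * hinge t (S.b x y)) := by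
      funext y; ring
    rw [e] at h1
    have h3 := uniq' h1 h2 ((s / ‖x‖ ^ 2) • x) ((s' / ‖x‖ ^ 2) • x)
    simp only [hin] at h3
    exact h3
  have e0 : ∀ s' : ℝ, κ' * s' + c' - (κ * s' + c) = 0 := by
    intro s'
    set e := κ' * s' + c' - (κ * s' + c) with he
    have hk : 0 < κ ^ 2 := by positivity
    have habs : 0 ≤ |κ * κ'| := abs_nonneg _
    have habs1 := le_abs_self (κ * κ')
    have habs2 := neg_abs_le (κ * κ')
    by_contra hcon
    rcases lt_or_gt_of_ne hcon with h0 | h0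
    · -- `e < 0`
      set δ := -e / (2 * (|κ * κ'| + 1)) with hδ
      have hδ0 : 0 < δ := by
        have : 0 < -e := by linarith
        positivity
      have hδ1 : δ * (|κ * κ'| + 1) = -e / 2 := by rw [hδ]; field_simp
      have h1 := key (κ * s' + c) (s' + κ * δ) s'
      have a1 : hinge (κ * s' + c) (κ * (s' + κ * δ) + c) = κ ^ 2 * δ := by
        rw [hinge_gt (by nlinarith)]; ring
      have a2 : hinge (κ * s' + c) (κ * s' + c) = 0 := by unfold hinge; simp
      have a3 : hinge (κ * s' + c) (κ' * (s' + κ * δ) + c') = 0 := hinge_lt (by nlinarith)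
      have a4 : hinge (κ * s' + c) (κ' * s' + c') = 0 := hinge_lt (by linarith)
      rw [a1, a2, a3, a4] at h1
      have : κ' * (κ ^ 2 * δ) ≠ 0 := by positivity
      apply this
      linarith
    · set δ := e / (2 * (|κ * κ'| + 1)) with hδ
      have hδ0 : 0 < δ := by positivity
      have hδ1 : δ * (|κ * κ'| + 1) = e / 2 := by rw [hδ]; field_simp
      have h1 := key (κ * s' + c) (s' - κ * δ) s'
      have a1 : hinge (κ * s' + c) (κ * (s' - κ * δ) + c) = 0 := hinge_lt (by nlinarith)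
      have a2 : hinge (κ * s' + c) (κ * s' + c) = 0 := by unfold hinge; simp
      have a3 : hinge (κ * s' + c) (κ' * (s' - κ * δ) + c') = κ' * (s' - κ * δ) + c' - (κ * s' + c) :=
        hinge_gt (by nlinarith)
      have a4 : hinge (κ * s' + c) (κ' * s' + c') = κ' * s' + c' - (κ * s' + c) := hinge_gt (by linarith)
      rw [a1, a2, a3, a4] at h1
      have : κ' * (κ ^ 2 * δ) ≠ 0 := by positivity
      apply this
      linarith
  have h0 := e0 0
  have h1 := e0 1
  constructor <;> linarith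

/-- two orthonormal vectors -/
lemma pair {ξ η : E} (hξ : ‖ξ‖ = 1) (hη : ‖η‖ = 1) (h : ⟪ξ, η⟫_ℝ = 0) :
    ∃ κ c c' : ℝ, κ ≠ 0 ∧ ∀ a a' : ℝ, S.Hin κ (a • ξ + a' • η) (a * c + a' * c') := by
  -- nonnegative coefficients
  have key : ∀ {ξ η : E} (_ : ‖ξ‖ = 1) (_ : ‖η‖ = 1) (_ : ⟪ξ, η⟫_ℝ = 0),
      ∃ κ c c' : ℝ, κ ≠ 0 ∧ ∀ a a' : ℝ, 0 ≤ a → 0 ≤ a' → S.Hin κ (a • ξ + a' • η) (a * c + a' * c') := by
    intro ξ η hξ hη h
    obtain ⟨D₁⟩ := S.exists_data hξ
    obtain ⟨D₂⟩ := S.exists_data hη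
    obtain ⟨κ, c, c', h1, h2⟩ := S.affine_pair hξ hη h D₁ D₂
    have hκ : κ ≠ 0 := by
      rintro rfl
      apply S.kappa_ne_zero hξ D₁ (c := c)
      filter_upwards [h1] with u hu
      rw [hu]; ring
    refine ⟨κ, c, c', hκ, ?_⟩
    intro a a' ha ha'
    rcases ha.eq_or_lt with ha | ha
    · rw [← ha]
      have := S.hin_smul (S.hin_of_data hη D₂ hκ h2) a'
      simpa using this
    rcases ha'.eq_or_lt with ha' | ha'
    · rw [← ha']
      have := S.hin_smul (S.hin_of_data hξ D₁ hκ h1) a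
      simpa using this
    set r := Real.sqrt (a ^ 2 + a' ^ 2) with hr
    have hr0 : 0 < r := by positivity
    have hr2 : r ^ 2 = a ^ 2 + a' ^ 2 := by rw [hr, Real.sq_sqrt (by positivity)]
    have hαα' : (a / r) ^ 2 + (a' / r) ^ 2 = 1 := by
      rw [div_pow, div_pow, ← add_div, ← hr2]
      field_simp
    have u3 : ‖(a / r) • ξ + (a' / r) • η‖ = 1 := by
      have := norm_comb_sq hξ hη h (a / r) (a' / r)
      rw [hαα'] at this
      have h0 := norm_nonneg ((a / r) • ξ + (a' / r) • η)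
      nlinarith
    obtain ⟨D₃⟩ := S.exists_data u3
    have h3 := S.affine_third hξ hη h D₁ D₂ h1 h2 (by positivity) (by positivity) hαα' D₃
    have h4 := S.hin_smul (S.hin_of_data u3 D₃ hκ h3) r
    have e1 : r • ((a / r) • ξ + (a' / r) • η) = a • ξ + a' • η := by
      rw [smul_add, smul_smul, smul_smul]
      congr 2 <;> field_simp
    have e2 : r * (a / r * c + a' / r * c') = a * c + a' * c' := by field_simp
    rwa [e1, e2] at h4
  obtain ⟨κ, c, c', hκ, h1⟩ := key hξ hη h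
  obtain ⟨κ₁, c₁, c₁', hκ₁, h2⟩ := key (show ‖-ξ‖ = 1 by rw [norm_neg]; exact hξ) hη
    (show ⟪-ξ, η⟫_ℝ = 0 by rw [inner_neg_left, h, neg_zero])
  have hξ0 : ξ ≠ 0 := by rintro rfl; simp at hξ
  have hη0 : η ≠ 0 := by rintro rfl; simp at hη
  have i1 : S.Hin κ η c' := by simpa using h1 0 1 le_rfl zero_le_one
  have i2 : S.Hin κ₁ η c₁' := by simpa using h2 0 1 le_rfl zero_le_one
  have i3 : S.Hin κ (-ξ) (-c) := by simpa using S.hin_neg (h1 1 0 zero_le_one le_rfl)
  have i4 : S.Hin κ₁ (-ξ) c₁ := by simpa using h2 1 0 zero_le_one le_rfl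
  obtain ⟨rfl, rfl⟩ := S.hin_uniq hη0 hκ hκ₁ i1 i2
  obtain ⟨_, rfl⟩ := S.hin_uniq (neg_ne_zero.2 hξ0) hκ hκ i3 i4
  refine ⟨κ, c, c', hκ, ?_⟩
  -- the second quadrant
  have h3 : ∀ a a' : ℝ, a ≤ 0 → 0 ≤ a' → S.Hin κ (a • ξ + a' • η) (a * c + a' * c') := by
    intro a a' ha ha'
    have := h2 (-a) a' (by linarith) ha'
    simpa using this
  intro a a'
  rcases le_total 0 a with ha | ha <;> rcases le_total 0 a' with ha' | ha'
  · exact h1 a a' ha ha'
  · have := S.hin_neg (h3 (-a) (-a') (by linarith) (by linarith))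
    have e1 : -((-a) • ξ + (-a') • η) = a • ξ + a' • η := by
      rw [neg_smul, neg_smul]; abel
    have e2 : -(-a * c + -a' * c') = a * c + a' * c' := by ring
    rwa [e1, e2] at this
  · exact h3 a a' ha ha'
  · have := S.hin_neg (h1 (-a) (-a') (by linarith) (by linarith))
    have e1 : -((-a) • ξ + (-a') • η) = a • ξ + a' • η := by
      rw [neg_smul, neg_smul]; abel
    have e2 : -(-a * c + -a' * c') = a * c + a' * c' := by ring
    rwa [e1, e2] at this

lemma two_in_pair (hdim : ∀ ξ : E, ∃ η : E, ‖η‖ = 1 ∧ ⟪ξ, η⟫_ℝ = 0) (x y : E) :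
    ∃ ξ η : E, ‖ξ‖ = 1 ∧ ‖η‖ = 1 ∧ ⟪ξ, η⟫_ℝ = 0 ∧ ∃ a b b' : ℝ, x = a • ξ ∧ y = b • ξ + b' • η := by
  have key : ∀ ξ y : E, ‖ξ‖ = 1 → ∃ η : E, ‖η‖ = 1 ∧ ⟪ξ, η⟫_ℝ = 0 ∧ ∃ b b' : ℝ, y = b • ξ + b' • η := by
    intro ξ y hξ
    set z := y - ⟪ξ, y⟫_ℝ • ξ with hz
    have hz0 : ⟪ξ, z⟫_ℝ = 0 := by
      rw [hz, inner_sub_right, real_inner_smul_right, real_inner_self_eq_norm_sq, hξ]; ring
    by_cases hzz : z = 0
    · obtain ⟨η, h1, h2⟩ := hdim ξ
      refine ⟨η, h1, h2, ⟪ξ, y⟫_ℝ, 0, ?_⟩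
      rw [zero_smul, add_zero]
      exact sub_eq_zero.1 (hz.symm.trans hzz)
    · have hn : ‖z‖ ≠ 0 := norm_ne_zero_iff.2 hzz
      refine ⟨‖z‖⁻¹ • z, ?_, ?_, ⟪ξ, y⟫_ℝ, ‖z‖, ?_⟩
      · rw [norm_smul, norm_inv, norm_norm, inv_mul_cancel₀ hn]
      · rw [real_inner_smul_right, hz0, mul_zero]
      · rw [smul_smul, mul_inv_cancel₀ hn, one_smul, hz]
        abel
  by_cases hx : x = 0
  · obtain ⟨ξ, h1, -⟩ := hdim 0
    obtain ⟨η, h2, h3, b, b', h4⟩ := key ξ y h1
    exact ⟨ξ, η, h1, h2, h3, 0, b, b', by rw [hx, zero_smul], h4⟩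
  · have hn : ‖x‖ ≠ 0 := norm_ne_zero_iff.2 hx
    have h1 : ‖‖x‖⁻¹ • x‖ = 1 := by rw [norm_smul, norm_inv, norm_norm, inv_mul_cancel₀ hn]
    obtain ⟨η, h2, h3, b, b', h4⟩ := key (‖x‖⁻¹ • x) y h1
    exact ⟨_, η, h1, h2, h3, ‖x‖, b, b', by rw [smul_smul, mul_inv_cancel₀ hn, one_smul], h4⟩

/-- the linear family of hinge relations -/
theorem exists_hin (hdim : ∀ ξ : E, ∃ η : E, ‖η‖ = 1 ∧ ⟪ξ, η⟫_ℝ = 0) :
    ∃ (κ : ℝ) (C : E →ₗ[ℝ] ℝ), κ ≠ 0 ∧ ∀ x, S.Hin κ x (C x) := by
  obtain ⟨ξ₀, h0, -⟩ := hdim 0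
  have hξ₀ : ξ₀ ≠ 0 := by rintro rfl; simp at h0
  obtain ⟨η₀, h1, h2⟩ := hdim ξ₀
  obtain ⟨κ, c₀, c₀', hκ, hH⟩ := S.pair h0 h1 h2
  have hH0 : S.Hin κ ξ₀ c₀ := by simpa using hH 1 0
  have hall : ∀ x, ∃ c, S.Hin κ x c := by
    intro x
    obtain ⟨ξ, η, k1, k2, k3, a, b, b', e1, e2⟩ := two_in_pair hdim ξ₀ x
    obtain ⟨κ', c, c', hκ', hH'⟩ := S.pair k1 k2 k3
    have i1 : S.Hin κ' ξ₀ (a * c) := by
      have := hH' a 0
      simpa [← e1] using this
    obtain ⟨rfl, _⟩ := S.hin_uniq hξ₀ hκ hκ' hH0 i1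
    exact ⟨b * c + b' * c', by rw [e2]; exact hH' b b'⟩
  classical
  choose C₀ hC₀ using hall
  set C : E → ℝ := fun x => if x = 0 then 0 else C₀ x with hCdef
  have hC : ∀ x, S.Hin κ x (C x) := by
    intro x
    rw [hCdef]
    by_cases hx : x = 0
    · simp only [hx, if_true]
      exact S.hin_zero κ
    · simp only [hx, if_false]
      exact hC₀ x
  have hCu : ∀ x c, S.Hin κ x c → (x = 0 → c = 0) → C x = c := by
    intro x c h h'
    by_cases hx : x = 0
    · rw [h' hx, hCdef]; simp [hx]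
    · exact (S.hin_uniq hx hκ hκ (hC x) h).2
  have hadd : ∀ x y, C (x + y) = C x + C y := by
    intro x y
    obtain ⟨ξ, η, k1, k2, k3, a, b, b', e1, e2⟩ := two_in_pair hdim x y
    obtain ⟨κ', c, c', hκ', hH'⟩ := S.pair k1 k2 k3
    have hξ0 : ξ ≠ 0 := by rintro rfl; simp at k1
    have i1 : S.Hin κ' ξ c := by
      have := hH' 1 0
      simpa using this
    obtain ⟨rfl, _⟩ := S.hin_uniq hξ0 hκ hκ' (hC ξ) i1
    have hz : ∀ a a' : ℝ, a • ξ + a' • η = 0 → a * c + a' * c' = 0 := by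
      intro a a' h
      have := norm_comb_sq k1 k2 k3 a a'
      rw [h, norm_zero] at this
      have ha : a = 0 := by nlinarith
      have ha' : a' = 0 := by nlinarith
      rw [ha, ha']; ring
    have hval : ∀ a a' : ℝ, C (a • ξ + a' • η) = a * c + a' * c' := fun a a' =>
      hCu _ _ (hH' a a') (hz a a')
    have e3 : x = a • ξ + (0 : ℝ) • η := by rw [zero_smul, add_zero]; exact e1
    have e4 : x + y = (a + b) • ξ + b' • η := by rw [e1, e2, add_smul]; abel
    rw [e4, hval, e3, hval, e2, hval]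
    ring
  have hsmul : ∀ (r : ℝ) x, C (r • x) = r * C x := by
    intro r x
    apply hCu
    · exact S.hin_smul (hC x) r
    · intro h
      rcases smul_eq_zero.1 h with h | h
      · rw [h, zero_mul]
      · rw [hCdef]; simp [h]
  exact ⟨κ, { toFun := C, map_add' := hadd, map_smul' := hsmul }, hκ, hC⟩

end Rel

end Pool.Agent.Helper23K9.LR
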