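import Mathlib
import Pool.Agent.Helper23K9.LR.One

set_option autoImplicit false

open MeasureTheory Set Filter Topology

namespace Pool.Agent.Helper23K9.LR

/-- The real vector space of the finitely supported functions `x : M → ℝ` with `∑ x(m) = 0`. -/
def zeroSum (M : Type*) : Submodule ℝ (M →₀ ℝ) where
  carrier := {x | ∑ m ∈ x.support, x m = 0}
  zero_mem' := by simp
  add_mem' := by
    intro x y hx hy
    have e : ∀ z : M →₀ ℝ, ∑ m ∈ z.support, z m = Finsupp.linearCombination ℝ (fun _ : M => (1 : ℝ)) z := by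
      intro z
      simp [Finsupp.linearCombination_apply, Finsupp.sum]
    simp only [Set.mem_ofPred_eq] at hx hy ⊢
    rw [e] at hx hy ⊢
    rw [map_add, hx, hy, add_zero]
  smul_mem' := by
    intro c x hx
    have e : ∀ z : M →₀ ℝ, ∑ m ∈ z.support, z m = Finsupp.linearCombination ℝ (fun _ : M => (1 : ℝ)) z := by
      intro z
      simp [Finsupp.linearCombination_apply, Finsupp.sum]
    simp only [Set.mem_ofPred_eq] at hx ⊢
    rw [e] at hx ⊢
    rw [map_smul, hx, smul_zero]

/-- The space `𝓕₀(M)`. -/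
def F0 (M : Type*) : Type _ := zeroSum M

noncomputable instance (M : Type*) : AddCommGroup (F0 M) := inferInstanceAs (AddCommGroup (zeroSum M))
noncomputable instance (M : Type*) : Module ℝ (F0 M) := inferInstanceAs (Module ℝ (zeroSum M))

/-- The value `∑ x(m) f(m)`. -/
def F0.eval {M : Type*} (x : F0 M) (f : M → ℝ) : ℝ := ∑ m ∈ x.1.support, x.1 m * f m

/-- The free norm `sup {|∑ x(m) f(m)| : f is 1-Lipschitz}`. -/
noncomputable def F0.freeNorm {M : Type*} [PseudoMetricSpace M] (x : F0 M) : ℝ :=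
  sSup {r : ℝ | ∃ f : M → ℝ, (∀ p q, |f p - f q| ≤ dist p q) ∧ r = |x.eval f|}

section basic
variable {M : Type*}

lemma F0.eval_eq (x : F0 M) (f : M → ℝ) : x.eval f = Finsupp.linearCombination ℝ f x.1 := by
  simp [F0.eval, Finsupp.linearCombination_apply, Finsupp.sum]

lemma F0.eval_add (x y : F0 M) (f : M → ℝ) : (x + y).eval f = x.eval f + y.eval f := by
  simp only [F0.eval_eq]
  exact map_add (Finsupp.linearCombination ℝ f) x.1 y.1

lemma F0.eval_smul (a : ℝ) (x : F0 M) (f : M → ℝ) : (a • x).eval f = a * x.eval f := by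
  simp only [F0.eval_eq]
  exact map_smul (Finsupp.linearCombination ℝ f) a x.1

lemma F0.eval_zero (f : M → ℝ) : (0 : F0 M).eval f = 0 := by
  simp only [F0.eval_eq]
  exact map_zero (Finsupp.linearCombination ℝ f)

lemma F0.eval_const (x : F0 M) (c : ℝ) : x.eval (fun _ => c) = 0 := by
  unfold F0.eval
  rw [← Finset.sum_mul]
  have := x.2
  have h : ∑ m ∈ x.1.support, x.1 m = 0 := this
  rw [h, zero_mul]

lemma F0.eval_lin (x : F0 M) (f g : M → ℝ) (a b : ℝ) :
    x.eval (fun m => a * f m + b * g m) = a * x.eval f + b * x.eval g := by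
  unfold F0.eval
  rw [Finset.mul_sum, Finset.mul_sum, ← Finset.sum_add_distrib]
  apply Finset.sum_congr rfl
  intro m _
  ring

/-- evaluation as a linear map -/
def evl (f : M → ℝ) : F0 M →ₗ[ℝ] ℝ where
  toFun x := x.eval f
  map_add' x y := x.eval_add y f
  map_smul' a x := F0.eval_smul a x f

/-- The molecule `χ_p - χ_q`. -/
noncomputable def F0.mol (p q : M) : F0 M := ⟨Finsupp.single p 1 - Finsupp.single q 1, by
  have e : ∀ z : M →₀ ℝ, ∑ m ∈ z.support, z m = Finsupp.linearCombination ℝ (fun _ : M => (1 : ℝ)) z := by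
    intro z
    simp [Finsupp.linearCombination_apply, Finsupp.sum]
  show ∑ m ∈ _, _ = (0 : ℝ)
  rw [e, map_sub]
  simp⟩

lemma F0.eval_mol (p q : M) (f : M → ℝ) : (F0.mol p q).eval f = f p - f q := by
  rw [F0.eval_eq]
  unfold F0.mol
  simp only
  rw [map_sub]
  simp

end basic

section metric
variable {M : Type*} [PseudoMetricSpace M]

lemma LK.one_abs {f : M → ℝ} (h : LK 1 f) : ∀ p q, |f p - f q| ≤ dist p q := fun p q => by
  have := h.abs p q
  rwa [one_mul] at this

lemma LK_one_of_abs {f : M → ℝ} (h : ∀ p q, |f p - f q| ≤ dist p q) : LK 1 f := fun p q => by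
  rw [one_mul]
  exact (le_abs_self _).trans (h p q)

lemma F0.bdd (x : F0 M) : BddAbove {r : ℝ | ∃ f : M → ℝ, (∀ p q, |f p - f q| ≤ dist p q) ∧ r = |x.eval f|} := by
  rcases isEmpty_or_nonempty M with hM | ⟨⟨m₀⟩⟩
  · refine ⟨0, ?_⟩
    rintro r ⟨f, -, rfl⟩
    have : x.eval f = 0 := Finset.sum_eq_zero (fun m _ => (hM.false m).elim)
    rw [this, abs_zero]
  · refine ⟨∑ m ∈ x.1.support, |x.1 m| * dist m m₀, ?_⟩
    rintro r ⟨f, hf, rfl⟩
    have h1 : x.eval f = ∑ m ∈ x.1.support, x.1 m * (f m - f m₀) := by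
      have := x.eval_const (f m₀)
      unfold F0.eval at this ⊢
      simp only [mul_sub, Finset.sum_sub_distrib]
      rw [this, sub_zero]
    rw [h1]
    refine (Finset.abs_sum_le_sum_abs _ _).trans (Finset.sum_le_sum fun m _ => ?_)
    rw [abs_mul]
    exact mul_le_mul_of_nonneg_left (hf m m₀) (abs_nonneg _)

lemma F0.le_norm (x : F0 M) {f : M → ℝ} (hf : LK 1 f) : |x.eval f| ≤ x.freeNorm :=
  le_csSup x.bdd ⟨f, hf.one_abs, rfl⟩

lemma F0.norm_le (x : F0 M) {c : ℝ} (h : ∀ f : M → ℝ, LK 1 f → |x.eval f| ≤ c) : x.freeNorm ≤ c := by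
  apply csSup_le
  · refine ⟨|x.eval (fun _ => 0)|, fun _ => 0, fun p q => ?_, rfl⟩
    simp
  · rintro r ⟨f, hf, rfl⟩
    exact h f (LK_one_of_abs hf)

lemma F0.freeNorm_nonneg (x : F0 M) : 0 ≤ x.freeNorm := by
  have h : LK 1 (fun _ : M => (0 : ℝ)) := fun p q => by simp
  exact (abs_nonneg _).trans (x.le_norm h)

lemma F0.freeNorm_add (x y : F0 M) : (x + y).freeNorm ≤ x.freeNorm + y.freeNorm := by
  apply F0.norm_le
  intro f hf
  rw [F0.eval_add]
  exact (abs_add_le _ _).trans (add_le_add (x.le_norm hf) (y.le_norm hf))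

lemma F0.freeNorm_smul (a : ℝ) (x : F0 M) : (a • x).freeNorm = |a| * x.freeNorm := by
  have key : ∀ (a : ℝ) (x : F0 M), (a • x).freeNorm ≤ |a| * x.freeNorm := by
    intro a x
    apply F0.norm_le
    intro f hf
    rw [F0.eval_smul, abs_mul]
    exact mul_le_mul_of_nonneg_left (x.le_norm hf) (abs_nonneg _)
  apply le_antisymm (key a x)
  by_cases ha : a = 0
  · subst ha
    rw [abs_zero, zero_mul]
    exact F0.freeNorm_nonneg _
  · have h := key a⁻¹ (a • x)
    rw [smul_smul, inv_mul_cancel₀ ha, one_smul, abs_inv] at h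
    have : 0 < |a| := abs_pos.2 ha
    calc |a| * x.freeNorm ≤ |a| * (|a|⁻¹ * (a • x).freeNorm) := mul_le_mul_of_nonneg_left h this.le
      _ = (a • x).freeNorm := by field_simp

/-- the norm as a seminorm -/
noncomputable def freeSeminorm (M : Type*) [PseudoMetricSpace M] : Seminorm ℝ (F0 M) :=
  Seminorm.of F0.freeNorm F0.freeNorm_add (fun a x => by rw [F0.freeNorm_smul, Real.norm_eq_abs])

noncomputable instance (M : Type*) [PseudoMetricSpace M] : SeminormedAddCommGroup (F0 M) :=
  (freeSeminorm M).toAddGroupSeminorm.toSeminormedAddCommGroup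

lemma F0.norm_def (x : F0 M) : ‖x‖ = x.freeNorm := rfl

noncomputable instance (M : Type*) [PseudoMetricSpace M] : NormedSpace ℝ (F0 M) where
  norm_smul_le a x := by
    rw [F0.norm_def, F0.norm_def, F0.freeNorm_smul, Real.norm_eq_abs]

/-- The Lipschitz-free space: the completion of `(𝓕₀(M), ‖·‖)`. -/
abbrev FreeSpace (M : Type*) [PseudoMetricSpace M] : Type _ := UniformSpace.Completion (F0 M)

/-- The image of the molecule `χ_p - χ_q` in `𝓕(M)`. -/
noncomputable def mol (p q : M) : FreeSpace M := ((F0.mol p q : F0 M) : FreeSpace M)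

lemma abs_eval_le {K : ℝ} {f : M → ℝ} (hf : LK K f) (x : F0 M) : |x.eval f| ≤ K * ‖x‖ := by
  rcases isEmpty_or_nonempty M with hM | ⟨⟨m₀⟩⟩
  · have h1 : x.eval f = 0 := Finset.sum_eq_zero (fun m _ => (hM.false m).elim)
    have h2 : ‖x‖ = 0 := by
      apply le_antisymm _ (norm_nonneg x)
      rw [F0.norm_def]
      apply F0.norm_le
      intro g _
      have : x.eval g = 0 := Finset.sum_eq_zero (fun m _ => (hM.false m).elim)
      rw [this, abs_zero]
    rw [h1, h2]; simp
  by_cases hK : K ≤ 0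
  · have h0 : ∀ m, f m = f m₀ := by
      intro m
      have h1 := hf.abs m m₀
      have h2 : K * dist m m₀ ≤ 0 := mul_nonpos_of_nonpos_of_nonneg hK dist_nonneg
      have h3 := abs_nonneg (f m - f m₀)
      have h4 : |f m - f m₀| = 0 := by linarith
      exact sub_eq_zero.1 (abs_eq_zero.1 h4)
    have h1 : x.eval f = 0 := by
      have : f = fun _ => f m₀ := funext h0
      rw [this]
      exact x.eval_const _
    rw [h1, abs_zero]
    -- `K * ‖x‖ ≥ 0`: either `K = 0` or all distances vanish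
    rcases hK.eq_or_lt with hK0 | hK0
    · rw [hK0, zero_mul]
    · have h2 : ‖x‖ ≤ 0 := by
        rw [F0.norm_def]
        apply F0.norm_le
        intro g hg
        have h5 : g = fun _ => g m₀ := by
          funext m
          have h6 := hf m m₀
          rw [h0 m, sub_self] at h6
          have h7 : dist m m₀ = 0 := by
            apply le_antisymm _ dist_nonneg
            by_contra hcon
            push Not at hcon
            nlinarith
          have h8 := hg.abs m m₀
          rw [h7, mul_zero] at h8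
          exact sub_eq_zero.1 (abs_eq_zero.1 (le_antisymm h8 (abs_nonneg _)))
        rw [h5, x.eval_const, abs_zero]
      have h3 : ‖x‖ = 0 := le_antisymm h2 (norm_nonneg _)
      rw [h3, mul_zero]
  · push Not at hK
    have h1 : LK 1 (fun m => K⁻¹ * f m) := by
      have := hf.const_mul K⁻¹
      rwa [abs_of_pos (inv_pos.2 hK), inv_mul_cancel₀ hK.ne'] at this
    have h2 := x.le_norm h1
    have h3 : x.eval (fun m => K⁻¹ * f m) = K⁻¹ * x.eval f := by
      have := x.eval_lin f f K⁻¹ 0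
      simpa using this
    rw [h3, abs_mul, abs_of_pos (inv_pos.2 hK)] at h2
    rw [F0.norm_def]
    calc |x.eval f| = K * (K⁻¹ * |x.eval f|) := by field_simp
      _ ≤ K * x.freeNorm := mul_le_mul_of_nonneg_left h2 hK.le

lemma norm_mol_le (p q : M) : ‖mol p q‖ ≤ dist p q := by
  unfold mol
  rw [UniformSpace.Completion.norm_coe, F0.norm_def]
  apply F0.norm_le
  intro f hf
  rw [F0.eval_mol]
  exact hf.one_abs p q

lemma norm_mol (p q : M) : ‖mol p q‖ = dist p q := by
  apply le_antisymm (norm_mol_le p q)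
  unfold mol
  rw [UniformSpace.Completion.norm_coe, F0.norm_def]
  have hf : LK 1 (fun m : M => dist m q) := fun x y => by
    have := dist_triangle x y q
    linarith
  have := (F0.mol p q).le_norm hf
  rw [F0.eval_mol, dist_self, sub_zero, abs_of_nonneg dist_nonneg] at this
  exact this

/-- the embedding -/
noncomputable def emb (M : Type*) [PseudoMetricSpace M] : F0 M →ₗ[ℝ] FreeSpace M :=
  (UniformSpace.Completion.toComplₗᵢ (𝕜 := ℝ) (E := F0 M)).toLinearMap

lemma emb_apply (x : F0 M) : emb M x = (x : FreeSpace M) := rfl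

lemma dense_emb : DenseRange (emb M) := UniformSpace.Completion.denseRange_coe

lemma norm_emb (x : F0 M) : ‖emb M x‖ = ‖x‖ := UniformSpace.Completion.norm_coe x

/-- the functional of a function -/
noncomputable def fn (f : M → ℝ) : FreeSpace M →L[ℝ] ℝ := (evl f).extendOfNorm (emb M)

lemma fn_emb {K : ℝ} {f : M → ℝ} (hf : LK K f) (x : F0 M) : fn f (emb M x) = x.eval f := by
  unfold fn
  rw [LinearMap.extendOfNorm_eq dense_emb]
  · rfl
  · refine ⟨K, fun x => ?_⟩
    rw [norm_emb, Real.norm_eq_abs]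
    exact abs_eval_le hf x

lemma fn_le {K : ℝ} {f : M → ℝ} (hf : LK K f) (γ : FreeSpace M) : |fn f γ| ≤ K * ‖γ‖ := by
  unfold fn
  rw [← Real.norm_eq_abs]
  apply LinearMap.norm_extendOfNorm_apply_le dense_emb
  intro x
  rw [norm_emb, Real.norm_eq_abs]
  exact abs_eval_le hf x

lemma fn_mol {K : ℝ} {f : M → ℝ} (hf : LK K f) (p q : M) : fn f (mol p q) = f p - f q := by
  have := fn_emb hf (F0.mol p q)
  rw [F0.eval_mol] at this
  exact this

omit [PseudoMetricSpace M] in
/-- every element of `F0 M` is a combination of molecules -/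
lemma F0.eq_sum (x : F0 M) (m₀ : M) : x = ∑ m ∈ x.1.support, x.1 m • F0.mol m m₀ := by
  apply Subtype.ext
  have e1 : ((∑ m ∈ x.1.support, x.1 m • F0.mol m m₀ : F0 M)).1 =
      ∑ m ∈ x.1.support, x.1 m • (Finsupp.single m (1 : ℝ) - Finsupp.single m₀ 1) := by
    have := map_sum (zeroSum M).subtype (fun m => x.1 m • (F0.mol m m₀ : zeroSum M)) x.1.support
    exact this
  rw [e1]
  simp only [smul_sub, Finset.sum_sub_distrib, Finsupp.smul_single, smul_eq_mul, mul_one]
  have e2 : ∑ m ∈ x.1.support, Finsupp.single m₀ (x.1 m) = 0 := by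
    rw [← Finsupp.single_finsetSum]
    have h : ∑ m ∈ x.1.support, x.1 m = 0 := x.2
    rw [h]
    simp
  rw [e2, sub_zero]
  exact (Finsupp.sum_single x.1).symm

lemma emb_eq_sum (x : F0 M) (m₀ : M) : emb M x = ∑ m ∈ x.1.support, x.1 m • mol m m₀ := by
  conv_lhs => rw [x.eq_sum m₀]
  rw [map_sum]
  apply Finset.sum_congr rfl
  intro m _
  rw [map_smul]
  rfl

/-- continuous linear maps which agree on the molecules are equal -/
lemma ext_mol {G : Type*} [NormedAddCommGroup G] [NormedSpace ℝ G] {φ ψ : FreeSpace M →L[ℝ] G}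
    (h : ∀ p q, φ (mol p q) = ψ (mol p q)) : φ = ψ := by
  ext γ
  refine UniformSpace.Completion.induction_on γ ?_ ?_
  · exact isClosed_eq φ.continuous ψ.continuous
  · intro x
    rw [← emb_apply]
    rcases isEmpty_or_nonempty M with hM | ⟨⟨m₀⟩⟩
    · have : x = 0 := by
        apply Subtype.ext
        ext m
        exact (hM.false m).elim
      rw [this, map_zero, map_zero, map_zero]
    · rw [emb_eq_sum x m₀, map_sum, map_sum]
      apply Finset.sum_congr rfl
      intro m _
      rw [map_smul, map_smul, h]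

lemma LK_of_dual (φ : FreeSpace M →L[ℝ] ℝ) (m₀ : M) : LK ‖φ‖ (fun m => φ (mol m m₀)) := by
  intro p q
  have h1 : φ (mol p m₀) - φ (mol q m₀) = φ (mol p q) := by
    rw [← map_sub]
    congr 1
    unfold mol
    rw [← UniformSpace.Completion.coe_sub]
    congr 1
    apply Subtype.ext
    show (F0.mol p m₀ - F0.mol q m₀ : F0 M).1 = (F0.mol p q).1
    have : (F0.mol p m₀ - F0.mol q m₀ : F0 M).1 = (F0.mol p m₀).1 - (F0.mol q m₀).1 := rfl
    rw [this]
    unfold F0.mol
    simp
  beta_reduce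
  rw [h1]
  calc φ (mol p q) ≤ ‖φ (mol p q)‖ := le_abs_self _
    _ ≤ ‖φ‖ * ‖mol p q‖ := φ.le_opNorm _
    _ ≤ ‖φ‖ * dist p q := mul_le_mul_of_nonneg_left (norm_mol_le p q) (norm_nonneg _)

lemma mol_sub (p q r : M) : mol p r - mol q r = mol p q := by
  unfold mol
  rw [← UniformSpace.Completion.coe_sub]
  congr 1
  apply Subtype.ext
  show (F0.mol p r - F0.mol q r : F0 M).1 = (F0.mol p q).1
  have : (F0.mol p r - F0.mol q r : F0 M).1 = (F0.mol p r).1 - (F0.mol q r).1 := rfl
  rw [this]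
  unfold F0.mol
  simp

lemma fn_dual (φ : FreeSpace M →L[ℝ] ℝ) (m₀ : M) : fn (fun m => φ (mol m m₀)) = φ := by
  apply ext_mol
  intro p q
  rw [fn_mol (LK_of_dual φ m₀), ← map_sub, mol_sub]

/-- the Lipschitz functions separate the points of the free space -/
lemma eq_zero_of_fn [Nonempty M] {γ : FreeSpace M} (h : ∀ (f : M → ℝ) (K : ℝ), LK K f → fn f γ = 0) : γ = 0 := by
  by_contra hγ
  obtain ⟨φ, _, hφ⟩ := exists_dual_vector ℝ γ (norm_ne_zero_iff.2 hγ)
  obtain ⟨m₀⟩ := ‹Nonempty M›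
  have h1 := h _ _ (LK_of_dual φ m₀)
  rw [fn_dual] at h1
  rw [h1] at hφ
  have h2 : ‖γ‖ = 0 := by
    have h3 := hφ.symm
    simpa using h3
  exact hγ (norm_eq_zero.1 h2)

lemma fn_lin {K L : ℝ} {f g : M → ℝ} (hf : LK K f) (hg : LK L g) (a b : ℝ) (γ : FreeSpace M) :
    fn (fun m => a * f m + b * g m) γ = a * fn f γ + b * fn g γ := by
  have h1 : fn (fun m => a * f m + b * g m) = a • fn f + b • fn g := by
    apply ext_mol
    intro p q
    rw [fn_mol ((hf.const_mul a).add (hg.const_mul b))]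
    show _ = a * fn f (mol p q) + b * fn g (mol p q)
    rw [fn_mol hf, fn_mol hg]
    ring
  rw [h1]
  simp

lemma fn_congr {K L : ℝ} {f g : M → ℝ} (hf : LK K f) (hg : LK L g) (h : ∀ p q, f p - f q = g p - g q) :
    fn f = fn g := by
  apply ext_mol
  intro p q
  rw [fn_mol hf, fn_mol hg, h]

/-- approximation by finitely supported elements -/
lemma exists_approx (γ : FreeSpace M) {ε : ℝ} (hε : 0 < ε) : ∃ x : F0 M, ‖γ - emb M x‖ < ε := by
  obtain ⟨x, hx⟩ := dense_emb.exists_dist_lt γ hε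
  exact ⟨x, by rwa [dist_eq_norm] at hx⟩

/-- continuity for bounded pointwise convergence -/
lemma fn_tendsto {f : ℕ → M → ℝ} {f0 : M → ℝ} {K : ℝ} (hf : ∀ n, LK K (f n))
    (h : ∀ p q, Tendsto (fun n => f n p - f n q) atTop (𝓝 (f0 p - f0 q))) (γ : FreeSpace M) :
    Tendsto (fun n => fn (f n) γ) atTop (𝓝 (fn f0 γ)) := by
  have h0 : LK K f0 := fun x y => le_of_tendsto' (h x y) (fun n => hf n x y)
  rcases isEmpty_or_nonempty M with hM | ⟨⟨m₀⟩⟩
  · have : ∀ n, fn (f n) = fn f0 := fun n => fn_congr (hf n) h0 (fun p _ => (hM.false p).elim)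
    simp only [this]
    exact tendsto_const_nhds
  have hev : ∀ x : F0 M, Tendsto (fun n => x.eval (f n)) atTop (𝓝 (x.eval f0)) := by
    intro x
    have e : ∀ g : M → ℝ, x.eval g = ∑ m ∈ x.1.support, x.1 m * (g m - g m₀) := by
      intro g
      have := x.eval_const (g m₀)
      unfold F0.eval at this ⊢
      simp only [mul_sub, Finset.sum_sub_distrib]
      rw [this, sub_zero]
    simp only [e]
    apply tendsto_finsetSum
    intro m _
    exact (h m m₀).const_mul _
  have hK : 0 ≤ |K| + 1 := by positivity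
  rw [Metric.tendsto_atTop]
  intro ε hε
  obtain ⟨x, hx⟩ := exists_approx γ (show 0 < ε / (3 * (|K| + 1)) by positivity)
  obtain ⟨N, hN⟩ := (Metric.tendsto_atTop.1 (hev x)) (ε / 3) (by positivity)
  refine ⟨N, fun n hn => ?_⟩
  have h1 := hN n hn
  rw [Real.dist_eq] at h1 ⊢
  have b1 : ∀ g : M → ℝ, LK K g → |fn g γ - x.eval g| ≤ ε / 3 := by
    intro g hg
    have e1 : fn g γ - x.eval g = fn g (γ - emb M x) := by
      rw [map_sub, fn_emb hg]
    rw [e1]
    have hg' : LK (|K| + 1) g := hg.mono (by have := le_abs_self K; linarith)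
    refine (fn_le hg' _).trans ?_
    calc (|K| + 1) * ‖γ - emb M x‖ ≤ (|K| + 1) * (ε / (3 * (|K| + 1))) :=
          mul_le_mul_of_nonneg_left hx.le hK
      _ = ε / 3 := by field_simp
  have b2 := b1 _ (hf n)
  have b3 := b1 _ h0
  rw [abs_le] at b2 b3
  rw [abs_lt] at h1 ⊢
  constructor <;> linarith [h1.1, h1.2, b2.1, b2.2, b3.1, b3.2]

/-- integrals -/
lemma fn_integral {Ω : Type*} [MeasurableSpace Ω] {μ : Measure Ω} {h : Ω → M → ℝ} {K : Ω → ℝ}
    (hK : Integrable K μ) (hLK : ∀ ω, LK (K ω) (h ω)) (hi : ∀ x, Integrable (fun ω => h ω x) μ)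
    {γ : FreeSpace M} (h0 : ∀ ω, fn (h ω) γ = 0) : fn (fun x => ∫ ω, h ω x ∂μ) γ = 0 := by
  have hL : LK (∫ ω, K ω ∂μ) (fun x => ∫ ω, h ω x ∂μ) := by
    intro x y
    rw [← integral_sub (hi x) (hi y), ← integral_mul_const]
    apply integral_mono ((hi x).sub (hi y)) (hK.mul_const _)
    intro ω
    exact hLK ω x y
  set I := ∫ ω, K ω ∂μ with hI
  have key : ∀ ε : ℝ, 0 < ε → |fn (fun x => ∫ ω, h ω x ∂μ) γ| ≤ 2 * |I| * ε := by
    intro ε hε
    obtain ⟨x, hx⟩ := exists_approx γ hε
    have e1 : x.eval (fun y => ∫ ω, h ω y ∂μ) = ∫ ω, x.eval (h ω) ∂μ := by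
      unfold F0.eval
      rw [integral_finsetSum]
      · apply Finset.sum_congr rfl
        intro m _
        rw [integral_const_mul]
      · intro m _
        exact (hi m).const_mul _
    have e2 : |x.eval (fun y => ∫ ω, h ω y ∂μ)| ≤ |I| * ε := by
      rw [e1]
      have hint : Integrable (fun ω => x.eval (h ω)) μ := by
        unfold F0.eval
        exact integrable_finsetSum _ (fun m _ => (hi m).const_mul _)
      have hKε : ∀ ω, |x.eval (h ω)| ≤ K ω * ‖γ - emb M x‖ := by
        intro ω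
        have e3 : x.eval (h ω) = - fn (h ω) (γ - emb M x) := by
          rw [map_sub, fn_emb (hLK ω), h0 ω]; ring
        rw [e3, abs_neg]
        exact fn_le (hLK ω) _
      calc |∫ ω, x.eval (h ω) ∂μ| ≤ ∫ ω, |x.eval (h ω)| ∂μ := abs_integral_le_integral_abs
        _ ≤ ∫ ω, K ω * ‖γ - emb M x‖ ∂μ := integral_mono hint.abs (hK.mul_const _) hKε
        _ = I * ‖γ - emb M x‖ := by rw [integral_mul_const]
        _ ≤ |I| * ‖γ - emb M x‖ := mul_le_mul_of_nonneg_right (le_abs_self _) (norm_nonneg _)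
        _ ≤ |I| * ε := mul_le_mul_of_nonneg_left hx.le (abs_nonneg _)
    have e4 : fn (fun x => ∫ ω, h ω x ∂μ) γ = fn (fun x => ∫ ω, h ω x ∂μ) (γ - emb M x) +
        x.eval (fun y => ∫ ω, h ω y ∂μ) := by
      rw [map_sub, fn_emb hL]; ring
    rw [e4]
    have e5 := fn_le hL (γ - emb M x)
    have e6 : I * ‖γ - emb M x‖ ≤ |I| * ε :=
      (mul_le_mul_of_nonneg_right (le_abs_self _) (norm_nonneg _)).trans
        (mul_le_mul_of_nonneg_left hx.le (abs_nonneg _))
    refine (abs_add_le _ _).trans ?_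
    linarith
  have h1 : |fn (fun x => ∫ ω, h ω x ∂μ) γ| ≤ 0 := by
    apply le_of_forall_pos_le_add
    intro δ hδ
    have h2 := key (δ / (2 * |I| + 1)) (by positivity)
    have h3 : 2 * |I| * (δ / (2 * |I| + 1)) ≤ δ := by
      rw [mul_div_assoc', div_le_iff₀ (by positivity)]
      nlinarith [abs_nonneg I]
    linarith
  exact abs_eq_zero.1 (le_antisymm h1 (abs_nonneg _))

end metric

end Pool.Agent.Helper23K9.LR
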