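import Mathlib
import Pool.Agent.Helper23K9.LR.Free
import Pool.Agent.Helper23K9.LR.Rel

set_option autoImplicit false

open MeasureTheory Set Filter Topology

namespace Pool.Agent.Helper23K9.LR

variable {M : Type*} [PseudoMetricSpace M]

section
variable (T : FreeSpace M ≃ₗᵢ[ℝ] FreeSpace M)

/-- the relation -/
def RT (f g : M → ℝ) : Prop := (∃ K, LK K f) ∧ (∃ K, LK K g) ∧ ∀ γ, fn g γ = fn f (T γ)

variable {T}

lemma RT.symm {f g : M → ℝ} (h : RT T f g) : RT T.symm g f :=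
  ⟨h.2.1, h.1, fun γ => by rw [h.2.2, T.apply_symm_apply]⟩

lemma RT.iso1 {f g : M → ℝ} (h : RT T f g) {K : ℝ} (hf : LK K f) : LK K g := by
  obtain ⟨-, ⟨L, hL⟩, h3⟩ := h
  intro p q
  have h1 : g p - g q = fn f (T (mol p q)) := by rw [← h3, fn_mol hL]
  rw [h1]
  have h2 := fn_le hf (T (mol p q))
  rw [T.norm_map, norm_mol] at h2
  exact (le_abs_self _).trans h2

lemma RT.tot1 [Nonempty M] (T : FreeSpace M ≃ₗᵢ[ℝ] FreeSpace M) {f : M → ℝ} (h : ∃ K, LK K f) :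
    ∃ g, RT T f g := by
  obtain ⟨m₀⟩ := ‹Nonempty M›
  set φ : FreeSpace M →L[ℝ] ℝ := (fn f).comp (T.toContinuousLinearEquiv : FreeSpace M →L[ℝ] FreeSpace M) with hφ
  refine ⟨fun m => φ (mol m m₀), h, ⟨_, LK_of_dual φ m₀⟩, fun γ => ?_⟩
  rw [fn_dual]
  rfl

lemma RT.cont1 {f g : ℕ → M → ℝ} {f0 g0 : M → ℝ} {K : ℝ} (h : ∀ n, RT T (f n) (g n))
    (hK : ∀ n, LK K (f n)) (h0 : RT T f0 g0)
    (hf : ∀ x y, Tendsto (fun n => f n x - f n y) atTop (𝓝 (f0 x - f0 y))) (x y : M) :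
    Tendsto (fun n => g n x - g n y) atTop (𝓝 (g0 x - g0 y)) := by
  have e1 : ∀ n, g n x - g n y = fn (f n) (T (mol x y)) := by
    intro n
    rw [← (h n).2.2, fn_mol ((h n).iso1 (hK n))]
  obtain ⟨L, hL⟩ := h0.2.1
  have e2 : g0 x - g0 y = fn f0 (T (mol x y)) := by
    rw [← h0.2.2, fn_mol hL]
  simp only [e1, e2]
  exact fn_tendsto hK hf _

end

/-- The relation of a surjective linear isometry of the free space. -/
def relOf [Nonempty M] (T : FreeSpace M ≃ₗᵢ[ℝ] FreeSpace M) : Rel M where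
  R := RT T
  lip := fun h => h.1
  lin := by
    rintro f g f' g' ⟨⟨K, hK⟩, ⟨L, hL⟩, h⟩ ⟨⟨K', hK'⟩, ⟨L', hL'⟩, h'⟩ a b
    refine ⟨⟨_, (hK.const_mul a).add (hK'.const_mul b)⟩, ⟨_, (hL.const_mul a).add (hL'.const_mul b)⟩, ?_⟩
    intro γ
    rw [fn_lin hK hK', fn_lin hL hL', h, h']
  iso := fun h K => ⟨fun h1 => h.iso1 h1, fun h1 => h.symm.iso1 h1⟩
  tot := fun f h => RT.tot1 T h
  surj := fun g h => by
    obtain ⟨f, hf⟩ := RT.tot1 T.symm h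
    exact ⟨f, by simpa using hf.symm⟩
  congr := by
    rintro f g f' g' ⟨⟨K, hK⟩, ⟨L, hL⟩, h⟩ h1 h2
    have hK' : LK K f' := fun x y => by rw [← h1]; exact hK x y
    have hL' : LK L g' := fun x y => by rw [← h2]; exact hL x y
    refine ⟨⟨K, hK'⟩, ⟨L, hL'⟩, fun γ => ?_⟩
    rw [← fn_congr hL hL' h2, ← fn_congr hK hK' h1, h]
  cont := fun f g f0 g0 K h hK h0 hf x y => RT.cont1 h hK h0 hf x y
  cont' := fun f g f0 g0 K h hK h0 hg x y =>
    RT.cont1 (fun n => (h n).symm) (fun n => (h n).iso1 (hK n)) h0.symm hg x y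

end Pool.Agent.Helper23K9.LR
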