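import Mathlib
import Pool.Agent.Helper23K9.LR.Ridge
import Pool.Agent.Helper23K9.LR.FromT

set_option autoImplicit false

open MeasureTheory Set Filter Topology
open scoped InnerProductSpace

namespace Pool.Agent.Helper23K9.LR

section
variable {E : Type*} [NormedAddCommGroup E] [InnerProductSpace ℝ E] [FiniteDimensional ℝ E]

theorem exists_psi (hdim : ∀ ξ : E, ∃ η : E, ‖η‖ = 1 ∧ ⟪ξ, η⟫_ℝ = 0) (T : FreeSpace E ≃ₗᵢ[ℝ] FreeSpace E) :
    ∃ (κ : ℝ) (Ψ : E → E), κ ≠ 0 ∧ ∀ p q, T (mol p q) = κ • mol (Ψ p) (Ψ q) := by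
  obtain ⟨κ, C, hκ, hH⟩ := (relOf T).exists_hin hdim
  set S := relOf T with hS
  set L : E → E →ₗ[ℝ] ℝ := fun p =>
    { toFun := fun ξ => κ⁻¹ * (S.b ξ p - C ξ)
      map_add' := fun ξ η => by rw [S.b_add, map_add]; ring
      map_smul' := fun r ξ => by
        rw [S.b_smul, map_smul, smul_eq_mul, smul_eq_mul, RingHom.id_apply]; ring } with hL
  set Ψ : E → E := fun p => (InnerProductSpace.toDual ℝ E).symm (LinearMap.toContinuousLinearMap (L p)) with hΨ
  have hb : ∀ ξ p, S.b ξ p = κ * ⟪ξ, Ψ p⟫_ℝ + C ξ := by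
    intro ξ p
    have h1 : ⟪Ψ p, ξ⟫_ℝ = κ⁻¹ * (S.b ξ p - C ξ) := by
      rw [hΨ]
      simp only
      rw [InnerProductSpace.toDual_symm_apply]
      rfl
    rw [real_inner_comm, h1]
    field_simp
    ring
  refine ⟨κ, Ψ, hκ, fun p q => ?_⟩
  rw [← sub_eq_zero]
  let _ : MeasurableSpace E := borel E
  have _ : BorelSpace E := ⟨rfl⟩
  apply eq_zero_of_ridge
  intro x t
  have hK := LK_ridge zero_le_one (Rel.LK_hinge_real t) x
  have h1 := hH (κ⁻¹ • x) (t + C (κ⁻¹ • x))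
  have e1 : ∀ y : E, κ * ⟪κ⁻¹ • x, y⟫_ℝ = ⟪x, y⟫_ℝ := by
    intro y
    rw [real_inner_smul_left]
    field_simp
  have e2 : (fun y : E => Rel.hinge (t + C (κ⁻¹ • x)) (κ * ⟪κ⁻¹ • x, y⟫_ℝ + C (κ⁻¹ • x))) =
      fun y => Rel.hinge t ⟪x, y⟫_ℝ := by
    funext y
    rw [e1]
    unfold Rel.hinge
    congr 1
    ring
  have e3 : ∀ y : E, Rel.hinge (t + C (κ⁻¹ • x)) (S.b (κ⁻¹ • x) y) = Rel.hinge t ⟪x, Ψ y⟫_ℝ := by
    intro y
    rw [hb, e1]
    unfold Rel.hinge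
    congr 1
    ring
  rw [e2] at h1
  simp only [e3] at h1
  obtain ⟨h2, ⟨K, h3⟩, h4⟩ := h1
  have h5 := h4 (mol p q)
  rw [fn_mol h3] at h5
  rw [map_sub, map_smul, fn_mol hK, ← h5, smul_eq_mul]
  ring

/-- two-point combinations -/
lemma mem_of_mol {M : Type*} [MetricSpace M] {a b p q : M} (hab : a ≠ b) {c : ℝ}
    (h : mol a b = c • mol p q) : a = p ∨ a = q := by
  have hf : LK 1 (fun z : M => min (dist z b) (min (dist z p) (dist z q))) := by
    have e : ∀ w : M, LK 1 (fun z : M => dist z w) := fun w x y => by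
      have := dist_triangle x y w
      linarith
    exact (e b).min ((e p).min (e q))
  have h1 := congrArg (fn (fun z : M => min (dist z b) (min (dist z p) (dist z q)))) h
  rw [map_smul, fn_mol hf, fn_mol hf] at h1
  have e1 : min (dist b b) (min (dist b p) (dist b q)) = 0 := by
    rw [dist_self]
    exact min_eq_left (le_min dist_nonneg dist_nonneg)
  have e2 : min (dist p b) (min (dist p p) (dist p q)) = 0 := by
    rw [dist_self, min_eq_left (a := (0 : ℝ)) dist_nonneg]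
    exact min_eq_right dist_nonneg
  have e3 : min (dist q b) (min (dist q p) (dist q q)) = 0 := by
    rw [dist_self, min_eq_right (b := (0 : ℝ)) dist_nonneg]
    exact min_eq_right dist_nonneg
  rw [e1, e2, e3, sub_zero, sub_zero, smul_zero] at h1
  by_contra hcon
  push Not at hcon
  have : 0 < min (dist a b) (min (dist a p) (dist a q)) :=
    lt_min (dist_pos.2 hab) (lt_min (dist_pos.2 hcon.1) (dist_pos.2 hcon.2))
  linarith

/-- `φ` is an `a`-dilation. -/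
def IsDilation {M : Type*} [MetricSpace M] (a : ℝ) (φ : M → M) : Prop :=
  ∀ x y, dist x y = a * dist (φ x) (φ y)

/-- Lipschitz-free rigidity: every surjective linear isometry `T` of `𝓕(M)` is `ε T_φ`, with `ε = ±1` and
`φ` a surjective `a`-dilation of `M`, `a > 0`, where `T_φ (χ_p - χ_q) = a (χ_{φ p} - χ_{φ q})`. -/
def LipFreeRigid (M : Type*) [MetricSpace M] : Prop :=
  ∀ T : FreeSpace M ≃ₗᵢ[ℝ] FreeSpace M, ∃ (ε a : ℝ) (φ : M → M), (ε = 1 ∨ ε = -1) ∧ 0 < a ∧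
    Function.Surjective φ ∧ IsDilation a φ ∧ ∀ p q, T (mol p q) = ε • (a • mol (φ p) (φ q))

theorem rigid_of_psi {M : Type*} [MetricSpace M] (hM : ∀ p : M, ∃ q, p ≠ q)
    (h : ∀ T : FreeSpace M ≃ₗᵢ[ℝ] FreeSpace M, ∃ (κ : ℝ) (Ψ : M → M), κ ≠ 0 ∧
      ∀ p q, T (mol p q) = κ • mol (Ψ p) (Ψ q)) : LipFreeRigid M := by
  intro T
  obtain ⟨κ, Ψ, hκ, hΨ⟩ := h T
  obtain ⟨κ', Φ, hκ', hΦ⟩ := h T.symm
  refine ⟨if 0 < κ then 1 else -1, |κ|, Ψ, ?_, abs_pos.2 hκ, ?_, ?_, ?_⟩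
  · split_ifs
    · left; rfl
    · right; rfl
  · intro a
    obtain ⟨b, hab⟩ := hM a
    have h1 : mol a b = (κ' * κ) • mol (Ψ (Φ a)) (Ψ (Φ b)) := by
      have h2 : T (T.symm (mol a b)) = mol a b := T.apply_symm_apply _
      rw [hΦ, map_smul, hΨ, smul_smul] at h2
      exact h2.symm
    rcases mem_of_mol hab h1 with h3 | h3
    · exact ⟨_, h3.symm⟩
    · exact ⟨_, h3.symm⟩
  · intro x y
    have h1 : ‖T (mol x y)‖ = dist x y := by rw [T.norm_map, norm_mol]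
    rw [hΨ, norm_smul, norm_mol, Real.norm_eq_abs] at h1
    exact h1.symm
  · intro p q
    rw [hΨ, smul_smul]
    congr 1
    split_ifs with h1
    · rw [abs_of_pos h1, one_mul]
    · push Not at h1
      rw [abs_of_nonpos h1]
      ring

/-- Every finite-dimensional real inner product space of dimension at least `2` is Lipschitz-free rigid. -/
theorem rigid (h : 2 ≤ Module.finrank ℝ E) : LipFreeRigid E := by
  have hdim : ∀ ξ : E, ∃ η : E, ‖η‖ = 1 ∧ ⟪ξ, η⟫_ℝ = 0 := by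
    intro ξ
    have h1 : Module.finrank ℝ (ℝ ∙ ξ) + Module.finrank ℝ (ℝ ∙ ξ)ᗮ = Module.finrank ℝ E :=
      Submodule.finrank_add_finrank_orthogonal _
    have h2 : Module.finrank ℝ (ℝ ∙ ξ) ≤ 1 := by
      have := finrank_span_le_card (R := ℝ) ({ξ} : Set E)
      simpa using this
    have h3 : 0 < Module.finrank ℝ (ℝ ∙ ξ)ᗮ := by omega
    have _ : Nontrivial (ℝ ∙ ξ)ᗮ := Module.finrank_pos_iff.1 h3
    obtain ⟨⟨η, hη⟩, hη0⟩ := exists_ne (0 : (ℝ ∙ ξ)ᗮ)
    have hη1 : η ≠ 0 := fun h => hη0 (Subtype.ext h)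
    have hn : ‖η‖ ≠ 0 := norm_ne_zero_iff.2 hη1
    refine ⟨‖η‖⁻¹ • η, ?_, ?_⟩
    · rw [norm_smul, norm_inv, norm_norm, inv_mul_cancel₀ hn]
    · rw [real_inner_smul_right, Submodule.mem_orthogonal_singleton_iff_inner_right.1 hη, mul_zero]
  apply rigid_of_psi
  · intro p
    obtain ⟨η, h1, -⟩ := hdim 0
    refine ⟨p + η, fun h2 => ?_⟩
    have h3 : η = 0 := by
      have : p + 0 = p + η := by rw [add_zero]; exact h2
      exact (add_left_cancel this).symm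
    rw [h3, norm_zero] at h1
    exact zero_ne_one h1
  · exact exists_psi hdim

end

end Pool.Agent.Helper23K9.LR
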